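import Pool.Agent.H971.DU.Pt

/-! Potentials in the dust regime (helper file). -/

open MeasureTheory ProbabilityTheory Filter Topology Set
open scoped ENNReal NNReal unitInterval

namespace Pool.Agent.H971.DU

open Pool.Agent.H971.FV

section seq

/-- the error-compensating weights -/
noncomputable def gI (Λ : Measure ℝ) (n : ℕ) : ℝ := ∫ u, min (1 / ((n : ℝ) + 1) ^ 2) (u ^ 2) ∂(nu Λ)

variable {Λ : Measure ℝ} [IsFiniteMeasure Λ]

lemma integrable_min (c : ℝ) (hc : 0 ≤ c) : Integrable (fun u : ℝ => min c (u ^ 2)) (nu Λ) := by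
  refine integrable_nu (by fun_prop) (C := 1) (fun u _ => ?_)
  rw [abs_of_nonneg (le_min hc (sq_nonneg u)), one_mul]
  exact min_le_right _ _

lemma gI_nonneg (n : ℕ) : 0 ≤ gI Λ n :=
  integral_nonneg (fun u => le_min (by positivity) (sq_nonneg u))

lemma gI_anti {a b : ℕ} (h : a ≤ b) : gI Λ b ≤ gI Λ a := by
  refine integral_mono (integrable_min _ (by positivity)) (integrable_min _ (by positivity))
    (fun u => min_le_min_right _ ?_)
  have : (a : ℝ) ≤ b := by exact_mod_cast h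
  apply one_div_le_one_div_of_le (by positivity)
  apply pow_le_pow_left₀ (by positivity)
  linarith

/-- `∫ min(1/k²,u²) ≤ 9 gI(2k)` -/
lemma gI_two {k : ℕ} (hk : 1 ≤ k) :
    ∫ u, min (1 / (k : ℝ) ^ 2) (u ^ 2) ∂(nu Λ) ≤ 9 * gI Λ (2 * k) := by
  have hk' : (1 : ℝ) ≤ k := by exact_mod_cast hk
  unfold gI
  rw [← integral_const_mul]
  refine integral_mono (integrable_min _ (by positivity))
    ((integrable_min _ (by positivity)).const_mul 9) (fun u => ?_)
  simp only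
  rw [mul_min_of_nonneg _ _ (by norm_num : (0 : ℝ) ≤ 9)]
  refine min_le_min ?_ ?_
  · push_cast
    rw [mul_one_div, div_le_div_iff₀ (by positivity) (by positivity)]
    nlinarith
  · nlinarith [sq_nonneg u]

lemma summable_gI (hae : ∀ᵐ u ∂(nu Λ), u ∈ Ioo (0 : ℝ) 1)
    (hint : Integrable (fun u : ℝ => u) (nu Λ)) : Summable (gI Λ) := by
  refine summable_of_sum_range_le (c := ∫ u, 4 * u ∂(nu Λ)) gI_nonneg (fun N => ?_)
  unfold gI
  rw [← integral_finsetSum _ (fun i _ => integrable_min _ (by positivity))]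
  refine integral_mono_ae (integrable_finsetSum _ (fun i _ => integrable_min _ (by positivity)))
    (hint.const_mul 4) ?_
  filter_upwards [hae] with u hu
  exact sum_min_le hu.1 N

/-- the tail sums -/
noncomputable def tau (Λ : Measure ℝ) (C : ℝ) (n : ℕ) : ℝ := ∑' i, C * gI Λ (i + n)

lemma tau_nonneg {C : ℝ} (hC : 0 ≤ C) (n : ℕ) : 0 ≤ tau Λ C n :=
  tsum_nonneg (fun _ => mul_nonneg hC (gI_nonneg _))

lemma tau_tendsto (C : ℝ) : Tendsto (tau Λ C) atTop (𝓝 0) := by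
  exact tendsto_sum_nat_add (fun i => C * gI Λ i)

lemma tau_split {C : ℝ} (hs : Summable (gI Λ)) (k i : ℕ) :
    tau Λ C k = ∑ j ∈ Finset.range (i + 1), C * gI Λ (j + k) + tau Λ C (k + 1 + i) := by
  unfold tau
  have h1 : Summable (fun j => C * gI Λ (j + k)) := ((summable_nat_add_iff k).2 hs).mul_left C
  rw [← h1.sum_add_tsum_nat_add (i + 1)]
  congr 1
  refine tsum_congr (fun j => ?_)
  congr 2
  ring

lemma tau_gain {C : ℝ} (hC : 0 ≤ C) (hs : Summable (gI Λ)) (k i : ℕ) :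
    C * gI Λ (2 * k) * min ((i : ℝ) + 1) k ≤ tau Λ C k - tau Λ C (k + 1 + i) := by
  rw [tau_split hs k i, add_sub_cancel_right]
  have h1 : C * gI Λ (2 * k) * min ((i : ℝ) + 1) k
      = ∑ _j ∈ Finset.range (min (i + 1) k), C * gI Λ (2 * k) := by
    rw [Finset.sum_const, Finset.card_range, nsmul_eq_mul, mul_comm]
    push_cast
    rfl
  rw [h1]
  calc ∑ _j ∈ Finset.range (min (i + 1) k), C * gI Λ (2 * k)
      ≤ ∑ j ∈ Finset.range (min (i + 1) k), C * gI Λ (j + k) := by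
        refine Finset.sum_le_sum (fun j hj => ?_)
        rw [Finset.mem_range] at hj
        exact mul_le_mul_of_nonneg_left (gI_anti (by omega)) hC
    _ ≤ _ := by
        refine Finset.sum_le_sum_of_subset_of_nonneg ?_ (fun j _ _ => mul_nonneg hC (gI_nonneg _))
        intro j hj
        rw [Finset.mem_range] at hj ⊢
        omega

lemma tau_anti {C : ℝ} (hC : 0 ≤ C) (hs : Summable (gI Λ)) {a b : ℕ} (h : a ≤ b) :
    tau Λ C b ≤ tau Λ C a := by
  rcases Nat.eq_or_lt_of_le h with h | h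
  · rw [h]
  · obtain ⟨i, rfl⟩ : ∃ i, b = a + 1 + i := ⟨b - (a + 1), by omega⟩
    rw [tau_split hs a i]
    have : 0 ≤ ∑ j ∈ Finset.range (i + 1), C * gI Λ (j + a) :=
      Finset.sum_nonneg (fun j _ => mul_nonneg hC (gI_nonneg _))
    linarith

end seq

section pot

/-- the potential -/
noncomputable def mD (Λ : Measure ℝ) (C μ0 ℓ : ℝ) (k0 n : ℕ) : ℝ :=
  if n < k0 then μ0 else max 0 (1 - tau Λ C n - Real.log n / ℓ)

/-- the error function -/
noncomputable def wD (k0 : ℕ) (ℓ u : ℝ) : ℝ := min 2 (4 * k0 * (u / (1 - u)) / ℓ)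

lemma wD_nonneg {k0 : ℕ} {ℓ u : ℝ} (hℓ : 0 < ℓ) (h0 : 0 ≤ u) (h1 : u < 1) : 0 ≤ wD k0 ℓ u := by
  have : 0 ≤ u / (1 - u) := div_nonneg h0 (by linarith)
  exact le_min (by norm_num) (by positivity)

lemma wD_le {k0 : ℕ} (hk0 : 1 ≤ k0) {ℓ u : ℝ} (hℓ : 1 ≤ ℓ) (h0 : 0 ≤ u) (h1 : u < 1) :
    wD k0 ℓ u ≤ 8 * k0 * u := by
  have hk : (1 : ℝ) ≤ k0 := by exact_mod_cast hk0
  unfold wD
  rcases le_total u (1 / 2) with h | h
  · refine (min_le_right _ _).trans ?_
    have h2 : u / (1 - u) ≤ 2 * u := by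
      rw [div_le_iff₀ (by linarith)]
      nlinarith
    rw [div_le_iff₀ (by linarith)]
    have h3 : 4 * (k0 : ℝ) * (u / (1 - u)) ≤ 4 * k0 * (2 * u) :=
      mul_le_mul_of_nonneg_left h2 (by positivity)
    have h4 : 0 ≤ 8 * (k0 : ℝ) * u := by positivity
    nlinarith
  · refine (min_le_left _ _).trans ?_
    nlinarith

lemma wD_meas (k0 : ℕ) (ℓ : ℝ) : Measurable (wD k0 ℓ) := by
  unfold wD
  fun_prop

lemma wD_tendsto (k0 : ℕ) (u : ℝ) :
    Tendsto (fun n : ℕ => wD k0 (n : ℝ) u) atTop (𝓝 0) := by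
  unfold wD
  have h1 : Tendsto (fun n : ℕ => 4 * (k0 : ℝ) * (u / (1 - u)) / (n : ℝ)) atTop (𝓝 0) :=
    tendsto_const_div_atTop_nhds_zero_nat _
  have h2 := (tendsto_const_nhds (x := (2 : ℝ))).min h1
  rwa [min_eq_right (by norm_num : (0 : ℝ) ≤ 2)] at h2

variable {Λ : Measure ℝ} [IsFiniteMeasure Λ]

lemma wD_int (hae : ∀ᵐ u ∂(nu Λ), u ∈ Ioo (0 : ℝ) 1)
    (hint : Integrable (fun u : ℝ => u) (nu Λ)) {k0 : ℕ} (hk0 : 1 ≤ k0) {ℓ : ℝ} (hℓ : 1 ≤ ℓ) :
    Integrable (wD k0 ℓ) (nu Λ) := by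
  refine (hint.const_mul (8 * (k0 : ℝ))).mono' (wD_meas k0 ℓ).aestronglyMeasurable ?_
  filter_upwards [hae] with u hu
  rw [Real.norm_eq_abs, abs_of_nonneg (wD_nonneg (by linarith) hu.1.le hu.2)]
  exact wD_le hk0 hℓ hu.1.le hu.2

lemma wD_integral_tendsto (hae : ∀ᵐ u ∂(nu Λ), u ∈ Ioo (0 : ℝ) 1)
    (hint : Integrable (fun u : ℝ => u) (nu Λ)) {k0 : ℕ} (hk0 : 1 ≤ k0) :
    Tendsto (fun n : ℕ => ∫ u, wD k0 ((n : ℝ) + 1) u ∂(nu Λ)) atTop (𝓝 0) := by
  have h := tendsto_integral_of_dominated_convergence (μ := nu Λ)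
    (F := fun (n : ℕ) u => wD k0 ((n : ℝ) + 1) u) (f := fun _ => 0) (fun u => 8 * (k0 : ℝ) * u)
    (fun n => (wD_meas k0 _).aestronglyMeasurable) (hint.const_mul _) (fun n => ?_) ?_
  · simpa using h
  · filter_upwards [hae] with u hu
    rw [Real.norm_eq_abs, abs_of_nonneg (wD_nonneg (by positivity) hu.1.le hu.2)]
    exact wD_le hk0 (by linarith [Nat.cast_nonneg (α := ℝ) n]) hu.1.le hu.2
  · filter_upwards with u
    have := (tendsto_add_atTop_iff_nat 1).2 (wD_tendsto k0 u)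
    simpa using this

end pot

end Pool.Agent.H971.DU
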