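import Pool.Agent.H971.DU.Dust

/-! Drift of the potentials in the dust regime (helper file). -/

open MeasureTheory ProbabilityTheory Filter Topology Set
open scoped ENNReal NNReal unitInterval

namespace Pool.Agent.H971.DU

open Pool.Agent.H971.FV

lemma int3 {ν : Measure ℝ} {f g h : ℝ → ℝ} (hf : Integrable f ν) (hg : Integrable g ν)
    (hh : Integrable h ν) :
    ∫ u, (f u - g u - h u) ∂ν = ∫ u, f u ∂ν - ∫ u, g u ∂ν - ∫ u, h u ∂ν := by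
  have h1 : Integrable (fun u => f u - g u) ν := hf.sub hg
  rw [integral_sub h1 hh, integral_sub hf hg]

/-- the parameters -/
structure Par (Λ : Measure ℝ) (δ C μ0 : ℝ) (k0 : ℕ) : Prop where
  ae : ∀ᵐ u ∂(nu Λ), u ∈ Ioo (0 : ℝ) 1
  int : Integrable (fun u : ℝ => u) (nu Λ)
  δ0 : 0 < δ
  δ1 : δ ≤ 1 / 2
  C0 : 0 ≤ C
  CV : 1296 ≤ C * (δ ^ 2 * (nu Λ).real (Icc δ (1 - δ)))
  fin : nu Λ (Icc δ (1 - δ)) ≠ ∞
  k2 : 2 ≤ k0
  kδ : 8 ≤ k0 * δ
  τ : tau Λ C k0 ≤ 1 / 4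
  μpos : 0 < μ0
  μle : μ0 ≤ 1 / 4
  small : ∀ k : ℕ, 1 ≤ k → k < k0 →
    μ0 * ∫ u, P2 k u ∂(nu Λ) ≤ (1 / 4) * ∫ u, nb k u k0 ∂(nu Λ)

variable {Λ : Measure ℝ} [IsFiniteMeasure Λ] {δ C μ0 : ℝ} {k0 : ℕ}

namespace Par

lemma summ (p : Par Λ δ C μ0 k0) : Summable (gI Λ) := summable_gI p.ae p.int

lemma mD_nonneg (p : Par Λ δ C μ0 k0) (ℓ : ℝ) (n : ℕ) : 0 ≤ mD Λ C μ0 ℓ k0 n := by
  unfold mD
  split_ifs
  · exact p.μpos.le
  · exact le_max_left _ _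

lemma mD_le_one (p : Par Λ δ C μ0 k0) {ℓ : ℝ} (hℓ : 0 < ℓ) (n : ℕ) : mD Λ C μ0 ℓ k0 n ≤ 1 := by
  unfold mD
  split_ifs with h
  · linarith [p.μle]
  · refine max_le zero_le_one ?_
    have h1 := tau_nonneg (Λ := Λ) p.C0 n
    have h2 : 0 ≤ Real.log n / ℓ := div_nonneg (Real.log_natCast_nonneg n) hℓ.le
    linarith

lemma mD_zero (p : Par Λ δ C μ0 k0) {ℓ : ℝ} (hℓ : 0 < ℓ) {n : ℕ} (hn : k0 ≤ n)
    (hn2 : Real.exp ℓ ≤ n) : mD Λ C μ0 ℓ k0 n = 0 := by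
  unfold mD
  rw [if_neg (by omega)]
  refine max_eq_left ?_
  have h1 := tau_nonneg (Λ := Λ) p.C0 n
  have h2 : 1 ≤ Real.log n / ℓ := by
    rw [le_div_iff₀ hℓ, one_mul]
    have := Real.log_le_log (Real.exp_pos ℓ) hn2
    rwa [Real.log_exp] at this
  linarith

lemma log_add {k : ℕ} (hk : 1 ≤ k) (i : ℕ) :
    Real.log ((k + 1 + i : ℕ) : ℝ) ≤ Real.log k + ((i : ℝ) + 1) / k := by
  have hk' : (0 : ℝ) < k := by exact_mod_cast hk
  have h1 : ((k + 1 + i : ℕ) : ℝ) = k * (1 + ((i : ℝ) + 1) / k) := by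
    push_cast
    field_simp
    ring
  rw [h1, Real.log_mul hk'.ne' (by positivity)]
  have h2 := Real.log_le_sub_one_of_pos (show 0 < 1 + ((i : ℝ) + 1) / k by positivity)
  linarith

/-- main regime, relation between the values. -/
lemma main_rel (p : Par Λ δ C μ0 k0) {ℓ : ℝ} (hℓ : 1 ≤ ℓ) {k : ℕ} (hk : k0 ≤ k)
    (hpos : 0 < mD Λ C μ0 ℓ k0 k) (i : ℕ) :
    mD Λ C μ0 ℓ k0 k + C * gI Λ (2 * k) * min ((i : ℝ) + 1) k
      - min 2 (((i : ℝ) + 1) / (k * ℓ)) ≤ mD Λ C μ0 ℓ k0 (k + 1 + i) := by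
  have hk1 : 1 ≤ k := by have := p.k2; omega
  have hk' : (0 : ℝ) < k := by exact_mod_cast hk1
  have hg := tau_gain p.C0 p.summ k i
  have hτk := (tau_anti p.C0 p.summ hk).trans p.τ
  have hτ2 := tau_nonneg (Λ := Λ) p.C0 (k + 1 + i)
  have hm := p.mD_le_one (show 0 < ℓ by linarith) k
  rcases min_cases (2 : ℝ) (((i : ℝ) + 1) / (k * ℓ)) with ⟨h, _⟩ | ⟨h, _⟩
  · rw [h]
    have := p.mD_nonneg ℓ (k + 1 + i)
    linarith
  · rw [h]
    have e1 : mD Λ C μ0 ℓ k0 k = 1 - tau Λ C k - Real.log k / ℓ := by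
      unfold mD at hpos ⊢
      rw [if_neg (by omega)] at hpos ⊢
      rcases max_cases (0 : ℝ) (1 - tau Λ C k - Real.log k / ℓ) with ⟨h, _⟩ | ⟨h, _⟩
      · rw [h] at hpos; exact absurd hpos (lt_irrefl _)
      · exact h
    have e2 : 1 - tau Λ C (k + 1 + i) - Real.log ((k + 1 + i : ℕ) : ℝ) / ℓ
        ≤ mD Λ C μ0 ℓ k0 (k + 1 + i) := by
      unfold mD
      rw [if_neg (by omega)]
      exact le_max_right _ _
    have h3 := log_add hk1 i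
    have h4 : Real.log ((k + 1 + i : ℕ) : ℝ) / ℓ ≤ Real.log k / ℓ + ((i : ℝ) + 1) / (k * ℓ) := by
      have h5 : Real.log k / ℓ + ((i : ℝ) + 1) / (k * ℓ) = (Real.log k + ((i : ℝ) + 1) / k) / ℓ := by
        field_simp
      rw [h5]
      exact div_le_div_of_nonneg_right h3 (by linarith)
    rw [e1]
    linarith

lemma main_drift (p : Par Λ δ C μ0 k0) {ℓ : ℝ} (hℓ : 1 ≤ ℓ) {k : ℕ} (hk : k0 ≤ k)
    (hpos : 0 < mD Λ C μ0 ℓ k0 k) {u : ℝ} (hu : u ∈ Ioo (0 : ℝ) 1) :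
    (k * (C * gI Λ (2 * k)) * (δ ^ 2 / 12 * k)) * (Icc δ (1 - δ)).indicator (fun _ => (1 : ℝ)) u
      - P2 k u - k * wD k0 ℓ u ≤ D (mD Λ C μ0 ℓ k0) k u := by
  have hk1 : 1 ≤ k := by have := p.k2; omega
  have hk' : (1 : ℝ) ≤ k := by exact_mod_cast hk1
  have hk0' : (1 : ℝ) ≤ k0 := by exact_mod_cast (show 1 ≤ k0 by have := p.k2; omega)
  have hG := Gk_summable (k := k) hu.1.le hu.2
  have hη : 0 ≤ C * gI Λ (2 * k) := mul_nonneg p.C0 (gI_nonneg _)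
  have hE := err_le (k := k) hu.1.le hu.2 (c := k * ℓ) (by positivity)
  have hsum : HasSum (fun i : ℕ => nb k u (i + 2) * (C * gI Λ (2 * k) * min ((i : ℝ) + 1) k))
      (C * gI Λ (2 * k) * Gk k u) := by
    refine (hG.hasSum.mul_left (C * gI Λ (2 * k))).congr_fun ?_ |> fun h => h
    intro i; ring
  have h1 := D_lower (k := k) hu.1.le hu.2 (p.mD_nonneg ℓ) (p.mD_le_one (by linarith))
    hsum.summable hE.1 (p.main_rel hℓ hk hpos)
  rw [hsum.tsum_eq] at h1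
  have h2 : ∑' i : ℕ, nb k u (i + 2) * min 2 (((i : ℝ) + 1) / (k * ℓ)) ≤ wD k0 ℓ u := by
    refine hE.2.trans (min_le_min_left _ ?_)
    have h3 := S1_le_mean (k := k) hu.1.le hu.2
    have hr : 0 ≤ u / (1 - u) := div_nonneg hu.1.le (by linarith [hu.2])
    rw [div_le_div_iff₀ (by positivity) (by positivity)]
    have h4 : ((k : ℝ) + 1) * (u / (1 - u)) ≤ 4 * k0 * (u / (1 - u)) * k := by
      have : ((k : ℝ) + 1) ≤ 4 * k0 * k := by nlinarith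
      calc ((k : ℝ) + 1) * (u / (1 - u)) ≤ (4 * k0 * k) * (u / (1 - u)) :=
            mul_le_mul_of_nonneg_right this hr
        _ = _ := by ring
    calc S1 k u * ℓ ≤ (4 * k0 * (u / (1 - u)) * k) * ℓ :=
          mul_le_mul_of_nonneg_right (h3.trans h4) (by linarith)
      _ = _ := by ring
  have h3 : (δ ^ 2 / 12 * k) * (Icc δ (1 - δ)).indicator (fun _ => (1 : ℝ)) u ≤ Gk k u := by
    by_cases hmem : u ∈ Icc δ (1 - δ)
    · rw [indicator_of_mem hmem, mul_one]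
      refine Gk_lower hk1 p.δ0 p.δ1 hmem.1 hmem.2 ?_
      have hkk : (k0 : ℝ) ≤ k := by exact_mod_cast hk
      have := mul_le_mul_of_nonneg_right hkk p.δ0.le
      linarith [p.kδ]
    · rw [indicator_of_notMem hmem, mul_zero]
      exact Gk_nonneg hu.1.le hu.2
  have h4 : mD Λ C μ0 ℓ k0 k * P2 k u ≤ P2 k u := by
    have := P2_nonneg (k := k) hu.1.le hu.2
    have := p.mD_le_one (show 0 < ℓ by linarith) k
    nlinarith
  have h5 := mul_le_mul_of_nonneg_left h2 (show (0 : ℝ) ≤ k by linarith)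
  have h6 := mul_le_mul_of_nonneg_left h3 (mul_nonneg (show (0 : ℝ) ≤ k by linarith) hη)
  have e1 : (k * (C * gI Λ (2 * k)) * (δ ^ 2 / 12 * k)) *
      (Icc δ (1 - δ)).indicator (fun _ => (1 : ℝ)) u
      = k * (C * gI Λ (2 * k)) * ((δ ^ 2 / 12 * k) *
      (Icc δ (1 - δ)).indicator (fun _ => (1 : ℝ)) u) := by ring
  rw [e1]
  have e2 : (k : ℝ) * (C * gI Λ (2 * k) * Gk k u) = k * (C * gI Λ (2 * k)) * Gk k u := by ring
  rw [e2] at h1
  linarith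

lemma ind_int (p : Par Λ δ C μ0 k0) :
    Integrable ((Icc δ (1 - δ)).indicator (fun _ => (1 : ℝ))) (nu Λ) :=
  (integrable_indicator_iff measurableSet_Icc).2 (integrableOn_const p.fin)

lemma main_int (p : Par Λ δ C μ0 k0) {ℓ : ℝ} (hℓ : 1 ≤ ℓ) {k : ℕ} (hk : k0 ≤ k)
    (hpos : 0 < mD Λ C μ0 ℓ k0 k) {N : ℕ} (hN : ∀ n, N ≤ n → mD Λ C μ0 ℓ k0 n = 0) :
    -(k * ∫ u, wD k0 ℓ u ∂(nu Λ)) ≤ ∫ u, D (mD Λ C μ0 ℓ k0) k u ∂(nu Λ) := by
  have hk1 : 1 ≤ k := by have := p.k2; omega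
  have hk' : (1 : ℝ) ≤ k := by exact_mod_cast hk1
  have hk01 : 1 ≤ k0 := by have := p.k2; omega
  have hwi := wD_int p.ae p.int hk01 hℓ
  have h1 : ∫ u, ((k * (C * gI Λ (2 * k)) * (δ ^ 2 / 12 * k)) *
      (Icc δ (1 - δ)).indicator (fun _ => (1 : ℝ)) u
      - P2 k u - k * wD k0 ℓ u) ∂(nu Λ) ≤ ∫ u, D (mD Λ C μ0 ℓ k0) k u ∂(nu Λ) := by
    refine integral_mono_ae (((p.ind_int.const_mul _).sub (integrable_P2 k)).sub
      (hwi.const_mul _)) (integrable_D hN k) ?_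
    filter_upwards [p.ae] with u hu
    exact p.main_drift hℓ hk hpos hu
  rw [int3 (p.ind_int.const_mul _) (integrable_P2 k) (hwi.const_mul _), integral_const_mul,
    integral_const_mul, integral_indicator measurableSet_Icc, setIntegral_const, smul_eq_mul,
    mul_one] at h1
  have h2 : ∫ u, P2 k u ∂(nu Λ) ≤ 12 * k ^ 2 * (9 * gI Λ (2 * k)) := by
    have h3 : ∫ u, P2 k u ∂(nu Λ) ≤ ∫ u, 12 * k ^ 2 * min (1 / (k : ℝ) ^ 2) (u ^ 2) ∂(nu Λ) := by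
      refine integral_mono_ae (integrable_P2 k) ((integrable_min _ (by positivity)).const_mul _) ?_
      filter_upwards [p.ae] with u hu
      exact P2_le_min hk1 hu.1 hu.2
    rw [integral_const_mul] at h3
    exact h3.trans (mul_le_mul_of_nonneg_left (gI_two hk1) (by positivity))
  have h3 : 12 * (k : ℝ) ^ 2 * (9 * gI Λ (2 * k))
      ≤ k * (C * gI Λ (2 * k)) * (δ ^ 2 / 12 * k) * (nu Λ).real (Icc δ (1 - δ)) := by
    have h4 := p.CV
    have h5 : 0 ≤ (k : ℝ) ^ 2 * gI Λ (2 * k) / 12 := by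
      have := gI_nonneg (Λ := Λ) (2 * k)
      positivity
    calc 12 * (k : ℝ) ^ 2 * (9 * gI Λ (2 * k)) = ((k : ℝ) ^ 2 * gI Λ (2 * k) / 12) * 1296 := by ring
      _ ≤ ((k : ℝ) ^ 2 * gI Λ (2 * k) / 12) * (C * (δ ^ 2 * (nu Λ).real (Icc δ (1 - δ)))) :=
        mul_le_mul_of_nonneg_left h4 h5
      _ = _ := by ring
  linarith

/-- low regime -/
lemma low_rel (p : Par Λ δ C μ0 k0) {ℓ : ℝ} (hℓ : 4 * k0 ≤ ℓ) {k : ℕ} (hk : k < k0) (i : ℕ) :
    mD Λ C μ0 ℓ k0 k + (if k0 ≤ k + 1 + i then (1 / 4 : ℝ) else 0)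
      - min 2 (((i : ℝ) + 1) / ℓ) ≤ mD Λ C μ0 ℓ k0 (k + 1 + i) := by
  have hk0' : (1 : ℝ) ≤ k0 := by exact_mod_cast (show 1 ≤ k0 by have := p.k2; omega)
  have hℓ0 : 0 < ℓ := by linarith
  have e1 : mD Λ C μ0 ℓ k0 k = μ0 := by unfold mD; rw [if_pos hk]
  have hμ := p.μle
  rw [e1]
  split_ifs with h
  · rcases min_cases (2 : ℝ) (((i : ℝ) + 1) / ℓ) with ⟨h2, _⟩ | ⟨h2, _⟩
    · rw [h2]
      have := p.mD_nonneg ℓ (k + 1 + i)
      linarith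
    · rw [h2]
      have e2 : 1 - tau Λ C (k + 1 + i) - Real.log ((k + 1 + i : ℕ) : ℝ) / ℓ
          ≤ mD Λ C μ0 ℓ k0 (k + 1 + i) := by
        unfold mD
        rw [if_neg (by omega)]
        exact le_max_right _ _
      have h3 := (tau_anti p.C0 p.summ h).trans p.τ
      have h4 : Real.log ((k + 1 + i : ℕ) : ℝ) / ℓ ≤ 1 / 4 + ((i : ℝ) + 1) / ℓ := by
        have h5 := Real.log_le_sub_one_of_pos
          (show (0 : ℝ) < ((k + 1 + i : ℕ) : ℝ) by positivity)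
        have h6 : (k : ℝ) ≤ k0 := by exact_mod_cast hk.le
        rw [div_le_iff₀ hℓ0, add_mul, div_mul_cancel₀ _ hℓ0.ne']
        push_cast at h5 ⊢
        linarith
      linarith
  · have e3 : mD Λ C μ0 ℓ k0 (k + 1 + i) = μ0 := by unfold mD; rw [if_pos (by omega)]
    rw [e3]
    have : 0 ≤ min 2 (((i : ℝ) + 1) / ℓ) := le_min (by norm_num) (by positivity)
    linarith

lemma low_drift (p : Par Λ δ C μ0 k0) {ℓ : ℝ} (hℓ : 4 * k0 ≤ ℓ) {k : ℕ} (hk1 : 1 ≤ k)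
    (hk : k < k0) {u : ℝ} (hu : u ∈ Ioo (0 : ℝ) 1) :
    (1 / 4) * nb k u k0 - μ0 * P2 k u - k * wD k0 ℓ u ≤ D (mD Λ C μ0 ℓ k0) k u := by
  have hk' : (1 : ℝ) ≤ k := by exact_mod_cast hk1
  have hkk : (k : ℝ) + 1 ≤ k0 := by exact_mod_cast hk
  have hℓ0 : 0 < ℓ := by linarith
  have e1 : mD Λ C μ0 ℓ k0 k = μ0 := by unfold mD; rw [if_pos hk]
  have hn : ∀ i : ℕ, 0 ≤ nb k u (i + 2) := fun i => nb_nonneg hu.1.le hu.2.le _
  have hE := err_le (k := k) hu.1.le hu.2 (c := ℓ) hℓ0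
  have hA : Summable (fun i : ℕ => nb k u (i + 2) *
      (if k0 ≤ k + 1 + i then (1 / 4 : ℝ) else 0)) := by
    refine Summable.of_nonneg_of_le (fun i => mul_nonneg (hn i) (by split_ifs <;> norm_num))
      (fun i => mul_le_mul_of_nonneg_left (?_ : _ ≤ (1 : ℝ)) (hn i))
      ((hasSum_P2 (k := k) hu.1.le hu.2).summable.mul_right (1 : ℝ))
    split_ifs <;> norm_num
  have h1 := D_lower (k := k) hu.1.le hu.2 (p.mD_nonneg ℓ) (p.mD_le_one hℓ0) hA hE.1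
    (p.low_rel hℓ hk)
  rw [e1] at h1
  have h2 : ∑' i : ℕ, nb k u (i + 2) * min 2 (((i : ℝ) + 1) / ℓ) ≤ wD k0 ℓ u := by
    refine hE.2.trans (min_le_min_left _ ?_)
    have h3 := S1_le_mean (k := k) hu.1.le hu.2
    have hr : 0 ≤ u / (1 - u) := div_nonneg hu.1.le (by linarith [hu.2])
    apply div_le_div_of_nonneg_right _ hℓ0.le
    refine h3.trans ?_
    apply mul_le_mul_of_nonneg_right _ hr
    linarith
  have h3 : nb k u k0 * (1 / 4) ≤ ∑' i : ℕ, nb k u (i + 2) *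
      (if k0 ≤ k + 1 + i then (1 / 4 : ℝ) else 0) := by
    have h4 := hA.le_tsum (k0 - 2) (fun j _ => mul_nonneg (hn j) (by split_ifs <;> norm_num))
    have h5 : k0 - 2 + 2 = k0 := by have := p.k2; omega
    have h6 : k0 ≤ k + 1 + (k0 - 2) := by omega
    rw [h5, if_pos h6] at h4
    exact h4
  have hnb : 0 ≤ nb k u k0 := nb_nonneg hu.1.le hu.2.le _
  have h5 := mul_le_mul_of_nonneg_left h2 (show (0 : ℝ) ≤ k by linarith)
  have h6 : nb k u k0 * (1 / 4) ≤ k * ∑' i : ℕ, nb k u (i + 2) *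
      (if k0 ≤ k + 1 + i then (1 / 4 : ℝ) else 0) := by
    have h7 := mul_le_mul_of_nonneg_left h3 (show (0 : ℝ) ≤ k by linarith)
    have h8 : nb k u k0 * (1 / 4) ≤ k * (nb k u k0 * (1 / 4)) := by nlinarith
    linarith
  linarith

lemma nb_int {k : ℕ} (hk2 : 2 ≤ k0) : Integrable (fun u => nb k u k0) (nu Λ) := by
  unfold nb
  have := (integrable_mono_nu (Λ := Λ) (l := k0) (m := k + 1) hk2).const_mul
    (((k + k0).choose k : ℕ) : ℝ)
  refine this.congr (Eventually.of_forall (fun u => ?_))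
  simp only
  ring

lemma low_int (p : Par Λ δ C μ0 k0) {ℓ : ℝ} (hℓ : 4 * k0 ≤ ℓ) {k : ℕ} (hk1 : 1 ≤ k)
    (hk : k < k0) {N : ℕ} (hN : ∀ n, N ≤ n → mD Λ C μ0 ℓ k0 n = 0) :
    -(k * ∫ u, wD k0 ℓ u ∂(nu Λ)) ≤ ∫ u, D (mD Λ C μ0 ℓ k0) k u ∂(nu Λ) := by
  have hk01 : 1 ≤ k0 := by have := p.k2; omega
  have hk0' : (1 : ℝ) ≤ k0 := by exact_mod_cast hk01
  have hwi := wD_int p.ae p.int hk01 (ℓ := ℓ) (by linarith)
  have hnbi := nb_int (Λ := Λ) (k := k) p.k2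
  have h1 : ∫ u, ((1 / 4) * nb k u k0 - μ0 * P2 k u - k * wD k0 ℓ u) ∂(nu Λ)
      ≤ ∫ u, D (mD Λ C μ0 ℓ k0) k u ∂(nu Λ) := by
    refine integral_mono_ae (((hnbi.const_mul _).sub ((integrable_P2 k).const_mul _)).sub
      (hwi.const_mul _)) (integrable_D hN k) ?_
    filter_upwards [p.ae] with u hu
    exact p.low_drift hℓ hk1 hk hu
  rw [int3 (hnbi.const_mul _) ((integrable_P2 k).const_mul _) (hwi.const_mul _),
    integral_const_mul,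
    integral_const_mul, integral_const_mul] at h1
  have := p.small k hk1 hk
  linarith

theorem hasPot (p : Par Λ δ C μ0 k0) : HasPot Λ μ0 := by
  intro ε hε
  have hk01 : 1 ≤ k0 := by have := p.k2; omega
  have h1 := wD_integral_tendsto p.ae p.int hk01
  have h2 := (h1.eventually (gt_mem_nhds hε)).and (eventually_ge_atTop (4 * k0))
  obtain ⟨n, hn1, hn2⟩ := h2.exists
  set ℓ : ℝ := (n : ℝ) + 1 with hℓdef
  have hk0' : (1 : ℝ) ≤ k0 := by exact_mod_cast hk01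
  have hn2' : 4 * (k0 : ℝ) ≤ n := by exact_mod_cast hn2
  have hℓ : 4 * (k0 : ℝ) ≤ ℓ := by linarith
  have hℓ1 : 1 ≤ ℓ := by linarith
  set N : ℕ := max k0 ⌈Real.exp ℓ⌉₊ + 2 with hNdef
  have hN : ∀ n, N ≤ n → mD Λ C μ0 ℓ k0 n = 0 := by
    intro n hn
    refine p.mD_zero (by linarith) (by omega) ?_
    have h3 : ⌈Real.exp ℓ⌉₊ ≤ n := by omega
    calc Real.exp ℓ ≤ (⌈Real.exp ℓ⌉₊ : ℝ) := Nat.le_ceil _
      _ ≤ n := by exact_mod_cast h3
  have hw0 : 0 ≤ ∫ u, wD k0 ℓ u ∂(nu Λ) := by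
    refine integral_nonneg_of_ae ?_
    filter_upwards [p.ae] with u hu
    exact wD_nonneg (by linarith) hu.1.le hu.2
  refine ⟨mD Λ C μ0 ℓ k0, N, ∫ u, wD k0 ℓ u ∂(nu Λ), hn1.le, ?_⟩
  refine { two := by omega, nonneg := p.mD_nonneg ℓ, le_one := p.mD_le_one (by linarith),
           zero := hN, one := ?_, eps := hw0, drift := ?_ }
  · unfold mD
    rw [if_pos (by have := p.k2; omega)]
  · intro k hk
    have hk' : (1 : ℝ) ≤ k := by exact_mod_cast hk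
    have h3 : -((k : ℝ) + 1) * ∫ u, wD k0 ℓ u ∂(nu Λ) ≤ -(k * ∫ u, wD k0 ℓ u ∂(nu Λ)) := by
      linarith
    refine h3.trans ?_
    rcases lt_or_ge k k0 with h | h
    · exact p.low_int hℓ hk h hN
    · rcases eq_or_lt_of_le (p.mD_nonneg ℓ k) with h4 | h4
      · have h5 : 0 ≤ ∫ u, D (mD Λ C μ0 ℓ k0) k u ∂(nu Λ) := by
          refine integral_nonneg_of_ae ?_
          filter_upwards [p.ae] with u hu
          exact D_nonneg_of_zero hu.1.le hu.2 (p.mD_nonneg ℓ) h4.symm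
        have : 0 ≤ (k : ℝ) * ∫ u, wD k0 ℓ u ∂(nu Λ) := by positivity
        linarith
      · exact p.main_int hℓ1 h h4 hN

end Par

end Pool.Agent.H971.DU
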