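import Pool.Agent.H971.DU.Dust2

/-! Existence of the potentials in the dust regime (helper file). -/

open MeasureTheory ProbabilityTheory Filter Topology Set
open scoped ENNReal NNReal unitInterval

namespace Pool.Agent.H971.DU

open Pool.Agent.H971.FV

lemma exists_mu (A B : ℕ → ℝ) (hA : ∀ k, 0 ≤ A k) (hB : ∀ k, 0 < B k) (n : ℕ) :
    ∃ μ0 : ℝ, 0 < μ0 ∧ μ0 ≤ 1 / 4 ∧ ∀ k < n, μ0 * A k ≤ B k := by
  induction n with
  | zero => exact ⟨1 / 4, by norm_num, le_rfl, fun k hk => absurd hk (Nat.not_lt_zero k)⟩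
  | succ n ih =>
    obtain ⟨μ, h1, h2, h3⟩ := ih
    have hAn := hA n
    have hBn := hB n
    refine ⟨min μ (B n / (A n + 1)), lt_min h1 (by positivity), (min_le_left _ _).trans h2, ?_⟩
    intro k hk
    rcases Nat.lt_succ_iff_lt_or_eq.1 hk with h | h
    · exact (mul_le_mul_of_nonneg_right (min_le_left _ _) (hA k)).trans (h3 k h)
    · subst h
      refine (mul_le_mul_of_nonneg_right (min_le_right _ _) hAn).trans ?_
      rw [div_mul_eq_mul_div, div_le_iff₀ (by positivity)]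
      nlinarith

variable {Λ : Measure ℝ} [IsFiniteMeasure Λ]

lemma nu_ac : nu Λ ≪ Λ.restrict (Ioc 0 1) := withDensity_absolutelyContinuous _ _

lemma nu_ae (h1 : Λ {1} = 0) : ∀ᵐ u ∂(nu Λ), u ∈ Ioo (0 : ℝ) 1 := by
  refine nu_ac.ae_le ?_
  change ∀ᵐ u ∂(Λ.restrict (Ioc 0 1)), u ∈ Ioo (0 : ℝ) 1
  rw [ae_restrict_iff' measurableSet_Ioc]
  have h2 : ∀ᵐ u ∂Λ, u ≠ 1 := by
    rw [ae_iff]
    simpa using h1
  filter_upwards [h2] with u hu hu2
  exact ⟨hu2.1, lt_of_le_of_ne hu2.2 hu⟩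

theorem dust_pot (h1 : Λ {1} = 0) (hne : nu Λ ≠ 0)
    (hint : ∫⁻ u, ENNReal.ofReal u ∂(nu Λ) ≠ ∞) : ∃ μ0 : ℝ, 0 < μ0 ∧ HasPot Λ μ0 := by
  have hae := nu_ae h1
  have hint' : Integrable (fun u : ℝ => u) (nu Λ) := by
    refine ⟨measurable_id.aestronglyMeasurable, ?_⟩
    rw [hasFiniteIntegral_iff_ofReal]
    · exact lt_top_iff_ne_top.2 hint
    · filter_upwards [hae] with u hu
      exact hu.1.le
  -- the central part
  have hpos : ∃ n : ℕ, 0 < nu Λ (Icc (1 / ((n : ℝ) + 2)) (1 - 1 / ((n : ℝ) + 2))) := by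
    by_contra hcon
    push Not at hcon
    have h2 : nu Λ (⋃ n : ℕ, Icc (1 / ((n : ℝ) + 2)) (1 - 1 / ((n : ℝ) + 2))) = 0 :=
      measure_iUnion_null (fun n => le_antisymm (hcon n) zero_le)
    have h3 : nu Λ (Ioo 0 1)ᶜ = 0 := hae
    have h4 : nu Λ univ = 0 := by
      refine measure_mono_null (t := (Ioo (0 : ℝ) 1)ᶜ ∪
        ⋃ n : ℕ, Icc (1 / ((n : ℝ) + 2)) (1 - 1 / ((n : ℝ) + 2))) ?_
        (measure_union_null h3 h2)
      intro u _
      by_cases hu : u ∈ Ioo (0 : ℝ) 1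
      · right
        obtain ⟨n, hn⟩ := exists_nat_gt (1 / min u (1 - u))
        have hm : 0 < min u (1 - u) := lt_min hu.1 (by linarith [hu.2])
        rw [mem_iUnion]
        refine ⟨n, ?_⟩
        have h5 : 1 / ((n : ℝ) + 2) ≤ min u (1 - u) := by
          rw [div_le_iff₀ (by positivity)]
          rw [div_lt_iff₀ hm] at hn
          nlinarith
        have h6 := h5.trans (min_le_left _ _)
        have h7 := h5.trans (min_le_right _ _)
        exact ⟨h6, by linarith⟩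
      · left; exact hu
    exact hne (Measure.measure_univ_eq_zero.1 h4)
  obtain ⟨n, hn⟩ := hpos
  set δ : ℝ := 1 / ((n : ℝ) + 2) with hδ
  have hδ0 : 0 < δ := by positivity
  have hδ1 : δ ≤ 1 / 2 := by
    rw [hδ]
    apply one_div_le_one_div_of_le (by norm_num)
    linarith [Nat.cast_nonneg (α := ℝ) n]
  have hfin : nu Λ (Icc δ (1 - δ)) ≠ ∞ := by
    have h2 := hint'.measure_norm_ge_lt_top hδ0
    refine ((measure_mono ?_).trans_lt h2).ne
    intro u hu
    simp only [mem_ofPred_eq, Real.norm_eq_abs]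
    exact hu.1.trans (le_abs_self u)
  set V := (nu Λ).real (Icc δ (1 - δ)) with hV
  have hV0 : 0 < V := ENNReal.toReal_pos hn.ne' hfin
  set C : ℝ := 1296 / (δ ^ 2 * V) with hC
  have hC0 : 0 ≤ C := by positivity
  have hτ : ∀ᶠ k in atTop, tau Λ C k ≤ 1 / 4 :=
    ((tau_tendsto (Λ := Λ) C).eventually (gt_mem_nhds (show (0 : ℝ) < 1 / 4 by norm_num))).mono
      (fun k hk => hk.le)
  obtain ⟨k0, hk1, hk2⟩ := (hτ.and (eventually_ge_atTop (⌈8 / δ⌉₊ + 2))).exists
  have hk3 : 2 ≤ k0 := by omega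
  have hk4 : 8 ≤ k0 * δ := by
    have h2 : 8 / δ ≤ k0 := (Nat.le_ceil _).trans (by exact_mod_cast (by omega : ⌈8 / δ⌉₊ ≤ k0))
    rwa [div_le_iff₀ hδ0] at h2
  obtain ⟨μ0, hμ1, hμ2, hμ3⟩ := exists_mu (fun k => ∫ u, P2 k u ∂(nu Λ))
    (fun k => (1 / 4) * ∫ u, nb k u k0 ∂(nu Λ))
    (fun k => integral_nonneg_of_ae (by
      filter_upwards [hae] with u hu
      exact P2_nonneg hu.1.le hu.2))
    (fun k => by
      refine mul_pos (by norm_num) ?_
      have hae0 : 0 ≤ᵐ[nu Λ] fun u => nb k u k0 := by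
        filter_upwards [hae] with u hu
        exact nb_nonneg hu.1.le hu.2.le _
      rw [integral_pos_iff_support_of_nonneg_ae hae0 (Par.nb_int hk3)]
      refine lt_of_lt_of_le hn (measure_mono ?_)
      intro u hu
      rw [Function.mem_support]
      have hu0 : 0 < u := hδ0.trans_le hu.1
      have hu1 : 0 < 1 - u := by linarith [hu.2]
      unfold nb
      have : 0 < (k + k0).choose k := Nat.choose_pos (Nat.le_add_right _ _)
      positivity) k0
  refine ⟨μ0, hμ1, Par.hasPot (δ := δ) (C := C) (k0 := k0) ?_⟩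
  refine { ae := hae, int := hint', δ0 := hδ0, δ1 := hδ1, C0 := hC0, CV := ?_, fin := hfin,
           k2 := hk3, kδ := hk4, τ := hk1, μpos := hμ1, μle := hμ2,
           small := fun k _ hk => hμ3 k hk }
  rw [hC, ← hV]
  have : δ ^ 2 * V ≠ 0 := by positivity
  rw [div_mul_cancel₀ _ this]

end Pool.Agent.H971.DU
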