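import Pool.Agent.H971.FV.Main

/-! The case `Λ({1}) > 0`: fixation (helper file). -/

open MeasureTheory ProbabilityTheory Filter Topology Set
open scoped ENNReal NNReal unitInterval

namespace Pool.Agent.H971.DU

open Pool.Agent.H971.FV

lemma tangent {X y : ℝ} (hX : 0 ≤ X) (hy : 0 ≤ y) (m : ℕ) :
    X ^ (m + 1) + (m + 1) * X ^ m * (y - X) ≤ y ^ (m + 1) := by
  induction m with
  | zero => simp
  | succ m ih =>
    have h1 := mul_le_mul_of_nonneg_left ih hy
    have h2 : 0 ≤ ((m : ℝ) + 1) * X ^ m * (y - X) ^ 2 := by positivity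
    calc X ^ (m + 1 + 1) + (((m + 1 : ℕ) : ℝ) + 1) * X ^ (m + 1) * (y - X)
        = y * (X ^ (m + 1) + (m + 1) * X ^ m * (y - X)) - (m + 1) * X ^ m * (y - X) ^ 2 := by
          push_cast; ring
      _ ≤ y * y ^ (m + 1) := by linarith
      _ = y ^ (m + 1 + 1) := by ring

section jump

variable {α : I → ℝ}

lemma jump_pow_eq (n : ℕ) (μ : Measure I) (u : ℝ) :
    jump (fun _ : Fin n => α) μ u
      = ∫ x, (((1 - u) * (∫ y, α y ∂μ) + u * α x) ^ n - (∫ y, α y ∂μ) ^ n) ∂μ := by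
  unfold jump mom
  simp only [Finset.prod_const, Finset.card_univ, Fintype.card_fin]

lemma jump_pow_nonneg (h : BLim α) (m : ℕ) (μ : Measure I) [IsProbabilityMeasure μ] {u : ℝ}
    (h0 : 0 ≤ u) (h1 : u ≤ 1) : 0 ≤ jump (fun _ : Fin (m + 1) => α) μ u := by
  rw [jump_pow_eq]
  have hX := integral_mem h μ
  set X := ∫ y, α y ∂μ with hXdef
  have hαi : Integrable α μ := integrable_of_bdd h.measurable h.abs_le
  have hyi : Integrable (fun x => (1 - u) * X + u * α x) μ :=
    (integrable_const _).add (hαi.const_mul u)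
  have hmem : ∀ x, 0 ≤ (1 - u) * X + u * α x ∧ (1 - u) * X + u * α x ≤ 1 := by
    intro x
    have h2 := h.nonneg x
    have h3 := h.le_one x
    have h4 : 0 ≤ 1 - u := by linarith
    constructor
    · have := mul_nonneg h4 hX.1
      have := mul_nonneg h0 h2
      linarith
    · nlinarith [hX.1, hX.2]
  have hI : ∫ x, ((m + 1) * X ^ m * ((1 - u) * X + u * α x) - (m + 1) * X ^ m * X) ∂μ = 0 := by
    have hu : ∫ x, u * α x ∂μ = u * X := integral_const_mul _ _
    rw [integral_sub (hyi.const_mul _) (integrable_const _), integral_const_mul,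
      integral_add (integrable_const _) (hαi.const_mul u), hu, integral_const,
      integral_const, probReal_univ, one_smul, one_smul]
    ring
  rw [← hI]
  refine integral_mono ((hyi.const_mul _).sub (integrable_const _)) ?_ (fun x => ?_)
  · refine integrable_of_bdd (C := 2) ?_ (fun x => ?_)
    · have := h.measurable
      fun_prop
    · have h2 := hmem x
      have h3 : 0 ≤ ((1 - u) * X + u * α x) ^ (m + 1) := pow_nonneg h2.1 _
      have h4 : ((1 - u) * X + u * α x) ^ (m + 1) ≤ 1 := pow_le_one₀ h2.1 h2.2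
      have h5 : 0 ≤ X ^ (m + 1) := pow_nonneg hX.1 _
      have h6 : X ^ (m + 1) ≤ 1 := pow_le_one₀ hX.1 hX.2
      rw [abs_le]
      constructor <;> linarith
  · have := tangent hX.1 (hmem x).1 m
    simp only
    linarith

lemma jump_pow_one (h : BLim α) (h01 : ∀ x, α x = 0 ∨ α x = 1) (m : ℕ) (μ : Measure I)
    [IsProbabilityMeasure μ] :
    jump (fun _ : Fin (m + 1) => α) μ 1 = (∫ y, α y ∂μ) - (∫ y, α y ∂μ) ^ (m + 1) := by
  rw [jump_pow_eq]
  have : ∀ x, ((1 - (1 : ℝ)) * (∫ y, α y ∂μ) + 1 * α x) ^ (m + 1) = α x := by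
    intro x
    rcases h01 x with h | h <;> rw [h] <;> simp
  simp_rw [this]
  rw [integral_sub (integrable_of_bdd h.measurable h.abs_le) (integrable_const _), integral_const,
    probReal_univ, one_smul]

variable {Λ : Measure ℝ} [IsFiniteMeasure Λ]

lemma integrable_jump' {n : ℕ} {f : Fin n → I → ℝ} (h : ∀ i, BLim (f i)) (μ : Measure I)
    [IsProbabilityMeasure μ] : Integrable (jump f μ) (nu Λ) := by
  have : jump f μ = fun u => ∑ S ∈ (Finset.univ : Finset (Fin n)).powerset with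
      2 ≤ S.card, u ^ S.card * (1 - u) ^ (n - S.card) * KS f μ S := by
    funext u
    exact jump_eq _ (fun i => (h i).measurable) (fun i x => (h i).abs_le x) μ u
  rw [this]
  refine integrable_finsetSum _ (fun S hS => ?_)
  rw [Finset.mem_filter] at hS
  exact (integrable_mono_nu hS.2).mul_const _

lemma nu_one : (nu Λ).real {1} = Λ.real {1} := by
  unfold nu
  rw [measureReal_def, withDensity_apply _ (measurableSet_singleton _), Measure.restrict_restrict
    (measurableSet_singleton _)]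
  have : ({1} : Set ℝ) ∩ Ioc 0 1 = {1} := by
    ext x
    simp only [mem_inter_iff, mem_singleton_iff, mem_Ioc]
    constructor
    · exact fun h => h.1
    · intro h
      subst h
      norm_num
  rw [this, lintegral_singleton]
  simp [measureReal_def]

lemma nu_mem : ∀ᵐ u ∂(nu Λ), u ∈ Ioc (0 : ℝ) 1 := by
  have h : nu Λ ≪ Λ.restrict (Ioc 0 1) := withDensity_absolutelyContinuous _ _
  exact h.ae_le (ae_restrict_mem measurableSet_Ioc)

lemma gen'_pow_nonneg (h : BLim α) (m : ℕ) (μ : Measure I) [IsProbabilityMeasure μ] :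
    0 ≤ gen' Λ (fun _ : Fin (m + 1) => α) μ := by
  unfold gen'
  refine integral_nonneg_of_ae ?_
  filter_upwards [nu_mem] with u hu
  exact jump_pow_nonneg h m μ hu.1.le hu.2

lemma gen'_pow_ge (h : BLim α) (h01 : ∀ x, α x = 0 ∨ α x = 1) (m : ℕ) (μ : Measure I)
    [IsProbabilityMeasure μ] :
    Λ.real {1} * ((∫ y, α y ∂μ) - (∫ y, α y ∂μ) ^ (m + 1))
      ≤ gen' Λ (fun _ : Fin (m + 1) => α) μ := by
  unfold gen'
  have h1 : ∫ u in ({1} : Set ℝ), jump (fun _ : Fin (m + 1) => α) μ u ∂(nu Λ)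
      ≤ ∫ u, jump (fun _ : Fin (m + 1) => α) μ u ∂(nu Λ) := by
    refine setIntegral_le_integral (integrable_jump' (fun _ => h) μ) ?_
    filter_upwards [nu_mem] with u hu
    exact jump_pow_nonneg h m μ hu.1.le hu.2
  rw [integral_singleton, nu_one, smul_eq_mul, jump_pow_one h h01] at h1
  exact h1

end jump

section process

variable {Ω : Type*} [mΩ : MeasurableSpace Ω] {P : Measure Ω} [IsProbabilityMeasure P]
  {Λ : Measure ℝ} [IsFiniteMeasure Λ] {ρ : ℝ≥0 → Ω → ProbabilityMeasure I} {α : I → ℝ}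

lemma mom_pow (n : ℕ) (μ : Measure I) :
    mom (fun _ : Fin n => α) μ = (∫ y, α y ∂μ) ^ n := by
  unfold mom
  simp

/-- `ψ_n(x) = 1 - x^n - (1-x)^n`. -/
noncomputable def psi (m : ℕ) (x : ℝ) : ℝ := 1 - x ^ (m + 1) - (1 - x) ^ (m + 1)

lemma psi_mem (m : ℕ) {x : ℝ} (h0 : 0 ≤ x) (h1 : x ≤ 1) : 0 ≤ psi m x ∧ psi m x ≤ 1 := by
  unfold psi
  have h2 : x ^ (m + 1) ≤ x := pow_le_of_le_one h0 h1 (by omega)
  have h3 : (1 - x) ^ (m + 1) ≤ 1 - x :=
    pow_le_of_le_one (by linarith) (by linarith) (by omega)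
  have h4 : 0 ≤ x ^ (m + 1) := by positivity
  have h5 : 0 ≤ (1 - x) ^ (m + 1) := pow_nonneg (by linarith) _
  constructor <;> linarith

lemma psi_tendsto {x : ℝ} (h0 : 0 ≤ x) (h1 : x ≤ 1) :
    Tendsto (fun m => psi m x) atTop (𝓝 ((Ioo (0 : ℝ) 1).indicator (fun _ => (1 : ℝ)) x)) := by
  by_cases hx : x ∈ Ioo (0 : ℝ) 1
  · rw [indicator_of_mem hx]
    have h2 := (tendsto_pow_atTop_nhds_zero_of_lt_one h0 hx.2).comp (tendsto_add_atTop_nat 1)
    have h3 := (tendsto_pow_atTop_nhds_zero_of_lt_one (r := 1 - x) (by linarith)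
      (by linarith [hx.1])).comp (tendsto_add_atTop_nat 1)
    have h4 := (h2.const_sub 1).sub h3
    simpa [psi, Function.comp_def] using h4
  · rw [indicator_of_notMem hx]
    have : x = 0 ∨ x = 1 := by
      by_contra hcon
      push Not at hcon
      exact hx ⟨lt_of_le_of_ne h0 (Ne.symm hcon.1), lt_of_le_of_ne h1 hcon.2⟩
    rcases this with rfl | rfl
    · simp [psi]
    · simp [psi]

lemma X_meas (hFV : IsFlemingViot Λ P ρ) (h : BLim α) (t : ℝ≥0) :
    Measurable (fun ω => ∫ y, α y ∂(ρ t ω : Measure I)) :=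
  (wm_of_measurable (hFV.meas t)).blim h

/-- expectation of ψ -/
lemma Epsi_eq (hFV : IsFlemingViot Λ P ρ) (h : BLim α) (m : ℕ) (t : ℝ≥0) :
    ∫ ω, psi m (∫ y, α y ∂(ρ t ω : Measure I)) ∂P = psi m (∫ y, α y ∂(volume : Measure I))
      - ∫ p, (gen' Λ (fun _ : Fin (m + 1) => α) (ρ p.1.toNNReal p.2 : Measure I)
        + gen' Λ (fun _ : Fin (m + 1) => fun x => 1 - α x) (ρ p.1.toNNReal p.2 : Measure I))
        ∂(ts P t) := by
  have hB1 : ∀ _i : Fin (m + 1), BLim α := fun _ => h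
  have hB2 : ∀ _i : Fin (m + 1), BLim (fun x => 1 - α x) := fun _ => h.compl
  have f1 := fwd hFV hB1 t
  have f2 := fwd hFV hB2 t
  have hc : ∀ μ : Measure I, IsProbabilityMeasure μ → ∫ y, (1 - α y) ∂μ = 1 - ∫ y, α y ∂μ := by
    intro μ hμ
    rw [integral_sub (integrable_const _) (integrable_of_bdd h.measurable h.abs_le)]
    simp
  rw [integral_add (hFV.integrable_gen hB1 t) (hFV.integrable_gen hB2 t)]
  have e1 : ∫ ω, psi m (∫ y, α y ∂(ρ t ω : Measure I)) ∂P
      = 1 - ∫ ω, mom (fun _ : Fin (m + 1) => α) (ρ t ω : Measure I) ∂P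
        - ∫ ω, mom (fun _ : Fin (m + 1) => fun x => 1 - α x) (ρ t ω : Measure I) ∂P := by
    have i1 := hFV.integrable_mom hB1 t
    have i2 := hFV.integrable_mom hB2 t
    have i3 : Integrable (fun ω => 1 - mom (fun _ : Fin (m + 1) => α) (ρ t ω : Measure I)) P :=
      (integrable_const _).sub i1
    have : ∫ ω, psi m (∫ y, α y ∂(ρ t ω : Measure I)) ∂P
      = ∫ ω, ((1 - mom (fun _ : Fin (m + 1) => α) (ρ t ω : Measure I))
        - mom (fun _ : Fin (m + 1) => fun x => 1 - α x) (ρ t ω : Measure I)) ∂P := by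
      refine integral_congr_ae (Eventually.of_forall (fun ω => ?_))
      simp only [mom_pow, hc _ (inferInstance : IsProbabilityMeasure (ρ t ω : Measure I))]
      rfl
    rw [this, integral_sub i3 i2, integral_sub (integrable_const _) i1]
    simp
  rw [e1, f1, f2, mom_pow, mom_pow, hc _ inferInstance]
  unfold psi
  ring

lemma Epsi_le (hFV : IsFlemingViot Λ P ρ) (h : BLim α) (h01 : ∀ x, α x = 0 ∨ α x = 1) (m : ℕ)
    (t : ℝ≥0) :
    (1 + Λ.real {1} * t) * ∫ ω, psi m (∫ y, α y ∂(ρ t ω : Measure I)) ∂P ≤ 1 := by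
  set c := Λ.real {1} with hc
  have hc0 : 0 ≤ c := measureReal_nonneg
  have hB1 : ∀ _i : Fin (m + 1), BLim α := fun _ => h
  have hB2 : ∀ _i : Fin (m + 1), BLim (fun x => 1 - α x) := fun _ => h.compl
  set G : ℝ × Ω → ℝ := fun p =>
    gen' Λ (fun _ : Fin (m + 1) => α) (ρ p.1.toNNReal p.2 : Measure I)
        + gen' Λ (fun _ : Fin (m + 1) => fun x => 1 - α x) (ρ p.1.toNNReal p.2 : Measure I) with hG
  have hGi : ∀ s : ℝ≥0, Integrable G (ts P s) := fun s =>
    (hFV.integrable_gen hB1 s).add (hFV.integrable_gen hB2 s)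
  have hG0 : ∀ p, 0 ≤ G p := fun p =>
    add_nonneg (gen'_pow_nonneg h m _) (gen'_pow_nonneg h.compl m _)
  set Y : ℝ≥0 → ℝ := fun s => ∫ ω, psi m (∫ y, α y ∂(ρ s ω : Measure I)) ∂P with hY
  have hYeq : ∀ s, Y s = psi m (∫ y, α y ∂(volume : Measure I)) - ∫ p, G p ∂(ts P s) :=
    fun s => Epsi_eq hFV h m s
  have hmono : ∀ s, s ≤ t → Y t ≤ Y s := by
    intro s hs
    rw [hYeq s, hYeq t]
    have hle : ts P s ≤ ts P t := by
      unfold ts
      refine Measure.prod_mono ?_ le_rfl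
      exact Measure.restrict_mono (Ioc_subset_Ioc_right (by exact_mod_cast hs)) le_rfl
    have := integral_mono_measure hle (Eventually.of_forall hG0) (hGi t)
    linarith
  have hcompl : ∀ μ : Measure I, IsProbabilityMeasure μ → ∫ y, (1 - α y) ∂μ = 1 - ∫ y, α y ∂μ := by
    intro μ hμ
    rw [integral_sub (integrable_const _) (integrable_of_bdd h.measurable h.abs_le)]
    simp
  have hGge : ∀ p, c * psi m (∫ y, α y ∂(ρ p.1.toNNReal p.2 : Measure I)) ≤ G p := by
    intro p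
    have g1 := gen'_pow_ge (Λ := Λ) h h01 m (ρ p.1.toNNReal p.2 : Measure I)
    have g2 := gen'_pow_ge (Λ := Λ) h.compl (fun x => by
      rcases h01 x with h | h <;> rw [h] <;> norm_num) m (ρ p.1.toNNReal p.2 : Measure I)
    rw [hcompl _ inferInstance] at g2
    have e : c * psi m (∫ y, α y ∂(ρ p.1.toNNReal p.2 : Measure I))
      = Λ.real {1} * ((∫ y, α y ∂(ρ p.1.toNNReal p.2 : Measure I))
        - (∫ y, α y ∂(ρ p.1.toNNReal p.2 : Measure I)) ^ (m + 1))
        + Λ.real {1} * (1 - (∫ y, α y ∂(ρ p.1.toNNReal p.2 : Measure I))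
        - (1 - (∫ y, α y ∂(ρ p.1.toNNReal p.2 : Measure I))) ^ (m + 1)) := by
      unfold psi
      rw [hc]; ring
    rw [e]
    exact add_le_add g1 g2
  have hψi : Integrable (fun p : ℝ × Ω =>
      psi m (∫ y, α y ∂(ρ p.1.toNNReal p.2 : Measure I))) (ts P t) := by
    have hm := hFV.wm.blim h
    refine Integrable.of_bound (C := 1) ?_ (Eventually.of_forall (fun p => ?_))
    · refine Measurable.aestronglyMeasurable ?_
      unfold psi
      fun_prop
    · have h1 := integral_mem h (ρ p.1.toNNReal p.2 : Measure I)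
      have h2 := psi_mem m h1.1 h1.2
      rw [Real.norm_eq_abs, abs_of_nonneg h2.1]
      exact h2.2
  have h1 : c * (t * Y t) ≤ ∫ p, G p ∂(ts P t) := by
    have h2 : ∫ p : ℝ × Ω, c * psi m (∫ y, α y ∂(ρ p.1.toNNReal p.2 : Measure I)) ∂(ts P t)
        ≤ ∫ p, G p ∂(ts P t) := integral_mono (hψi.const_mul c) (hGi t) hGge
    refine le_trans ?_ h2
    rw [integral_const_mul]
    apply mul_le_mul_of_nonneg_left _ hc0
    unfold ts at hψi ⊢
    rw [integral_prod _ hψi]
    have h3 : ∫ _s in Ioc (0 : ℝ) t, Y t = t * Y t := by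
      rw [setIntegral_const, Real.volume_real_Ioc, sub_zero, max_eq_left (NNReal.coe_nonneg t),
        smul_eq_mul]
    rw [← h3]
    refine setIntegral_mono_on (integrableOn_const (by simp)) hψi.integral_prod_left
      measurableSet_Ioc (fun s hs => ?_)
    exact hmono s.toNNReal (by
      rw [Real.toNNReal_le_iff_le_coe]
      exact hs.2)
  have h2 := hYeq t
  have h3 : psi m (∫ y, α y ∂(volume : Measure I)) ≤ 1 := by
    have h4 := integral_mem h (volume : Measure I)
    exact (psi_mem m h4.1 h4.2).2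
  have h5 : (1 + c * t) * Y t = Y t + c * (t * Y t) := by ring
  rw [h5]
  linarith

lemma prob_le (hFV : IsFlemingViot Λ P ρ) (h : BLim α) (h01 : ∀ x, α x = 0 ∨ α x = 1) (t : ℝ≥0) :
    (1 + Λ.real {1} * t) * P.real {ω | ∫ y, α y ∂(ρ t ω : Measure I) ∈ Ioo (0 : ℝ) 1} ≤ 1 := by
  have hmeas := X_meas hFV h t
  have h1 : Tendsto (fun m => ∫ ω, psi m (∫ y, α y ∂(ρ t ω : Measure I)) ∂P) atTop
      (𝓝 (∫ ω, (Ioo (0 : ℝ) 1).indicator (fun _ => (1 : ℝ)) (∫ y, α y ∂(ρ t ω : Measure I)) ∂P)) := by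
    refine tendsto_integral_of_dominated_convergence (fun _ => 1) (fun m => ?_)
      (integrable_const _) (fun m => ?_) ?_
    · refine Measurable.aestronglyMeasurable ?_
      unfold psi
      fun_prop
    · refine Eventually.of_forall (fun ω => ?_)
      have h1 := integral_mem h (ρ t ω : Measure I)
      have h2 := psi_mem m h1.1 h1.2
      rw [Real.norm_eq_abs, abs_of_nonneg h2.1]
      exact h2.2
    · refine Eventually.of_forall (fun ω => ?_)
      have h1 := integral_mem h (ρ t ω : Measure I)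
      exact psi_tendsto h1.1 h1.2
  have h2 : ∫ ω, (Ioo (0 : ℝ) 1).indicator (fun _ => (1 : ℝ)) (∫ y, α y ∂(ρ t ω : Measure I)) ∂P
      = P.real {ω | ∫ y, α y ∂(ρ t ω : Measure I) ∈ Ioo (0 : ℝ) 1} := by
    have hset : MeasurableSet {ω | ∫ y, α y ∂(ρ t ω : Measure I) ∈ Ioo (0 : ℝ) 1} :=
      hmeas measurableSet_Ioo
    have : (fun ω => (Ioo (0 : ℝ) 1).indicator (fun _ => (1 : ℝ)) (∫ y, α y ∂(ρ t ω : Measure I)))
        = {ω | ∫ y, α y ∂(ρ t ω : Measure I) ∈ Ioo (0 : ℝ) 1}.indicator (fun _ => (1 : ℝ)) := by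
      funext ω
      rfl
    rw [this, integral_indicator hset, setIntegral_const, smul_eq_mul, mul_one]
  rw [h2] at h1
  exact le_of_tendsto' (h1.const_mul _) (fun m => Epsi_le hFV h h01 m t)

lemma null_event (hFV : IsFlemingViot Λ P ρ) (hc : Λ {1} ≠ 0) (h : BLim α)
    (h01 : ∀ x, α x = 0 ∨ α x = 1) :
    ∀ᵐ ω ∂P, ¬ ∀ᶠ n : ℕ in atTop, ∫ y, α y ∂(ρ n ω : Measure I) ∈ Ioo (0 : ℝ) 1 := by
  have hc0 : 0 < Λ.real {1} := ENNReal.toReal_pos hc (measure_ne_top _ _)
  have hnull : ∀ N : ℕ, P {ω | ∀ n : ℕ, N ≤ n → ∫ y, α y ∂(ρ n ω : Measure I) ∈ Ioo (0 : ℝ) 1}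
      = 0 := by
    intro N
    have h1 : ∀ n : ℕ, N ≤ n →
        P.real {ω | ∀ n : ℕ, N ≤ n → ∫ y, α y ∂(ρ n ω : Measure I) ∈ Ioo (0 : ℝ) 1}
        ≤ 1 / (1 + Λ.real {1} * n) := by
      intro n hn
      have h2 := prob_le hFV h h01 (n : ℝ≥0)
      rw [NNReal.coe_natCast] at h2
      have h3 : P.real {ω | ∀ n : ℕ, N ≤ n → ∫ y, α y ∂(ρ n ω : Measure I) ∈ Ioo (0 : ℝ) 1}
          ≤ P.real {ω | ∫ y, α y ∂(ρ n ω : Measure I) ∈ Ioo (0 : ℝ) 1} :=
        measureReal_mono (fun ω hω => hω n hn)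
      refine h3.trans ?_
      rw [le_div_iff₀ (by positivity)]
      linarith
    have h4 : Tendsto (fun n : ℕ => 1 / (1 + Λ.real {1} * (n : ℝ))) atTop (𝓝 0) := by
      refine Tendsto.const_div_atTop ?_ 1
      refine tendsto_atTop_add_const_left _ _ ?_
      exact Tendsto.const_mul_atTop hc0 tendsto_natCast_atTop_atTop
    have h5 : P.real {ω | ∀ n : ℕ, N ≤ n → ∫ y, α y ∂(ρ n ω : Measure I) ∈ Ioo (0 : ℝ) 1} ≤ 0 :=
      ge_of_tendsto h4 ((eventually_ge_atTop N).mono h1)
    have h6 := le_antisymm h5 measureReal_nonneg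
    rwa [measureReal_eq_zero_iff] at h6
  have h7 := measure_iUnion_null hnull
  rw [ae_iff]
  refine measure_mono_null ?_ h7
  intro ω hω
  simp only [not_not, mem_ofPred_eq] at hω
  obtain ⟨N, hN⟩ := eventually_atTop.1 hω
  rw [mem_iUnion]
  exact ⟨N, hN⟩

lemma singleton_le {μ : Measure I} [IsProbabilityMeasure μ] (h : BLim α) {e : I}
    (he : α e = 1) : μ.real {e} ≤ ∫ y, α y ∂μ := by
  have h1 : ∫ t, ({e} : Set I).indicator (fun _ => (1 : ℝ)) t ∂μ = μ.real {e} := by
    rw [integral_indicator (measurableSet_singleton _), setIntegral_const, smul_eq_mul, mul_one]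
  rw [← h1]
  refine integral_mono ((integrable_const (1 : ℝ)).indicator (measurableSet_singleton _))
    (integrable_of_bdd h.measurable h.abs_le) (fun t => ?_)
  by_cases ht : t ∈ ({e} : Set I)
  · rw [indicator_of_mem ht]
    rw [mem_singleton_iff] at ht
    rw [ht, he]
  · rw [indicator_of_notMem ht]; exact h.nonneg t

theorem not_ae_hasEves_one (hFV : IsFlemingViot Λ P ρ) (hc : Λ {1} ≠ 0) :
    ¬ ∀ᵐ ω ∂P, HasEves (fun t => ρ t ω) := by
  intro hae
  have h1 : ∀ᵐ ω ∂P, ∀ q : ℚ,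
      ¬ ∀ᶠ n : ℕ in atTop, ∫ y, gi (q : ℝ) y ∂(ρ n ω : Measure I) ∈ Ioo (0 : ℝ) 1 := by
    rw [ae_all_iff]
    exact fun q => null_event hFV hc (gi_blim _) (gi_cases _)
  have h2 : ∀ᵐ _ω ∂P, False := by
    filter_upwards [hae, h1] with ω hω h1ω
    obtain ⟨e, he, hr⟩ := hω
    have hpos : ∀ i, ∀ᶠ n : ℕ in atTop, 0 < (ρ n ω : Measure I).real {e i} := by
      intro i
      have h3 := ((hr i).comp tendsto_natCast_atTop_atTop).eventually
        (lt_mem_nhds (show (0 : ℝ) < 1 by norm_num))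
      filter_upwards [h3] with n hn
      rcases eq_or_lt_of_le (measureReal_nonneg (μ := (ρ n ω : Measure I)) (s := {e i})) with h | h
      · simp only [Function.comp_apply] at hn
        rw [← h, zero_div] at hn
        exact absurd hn (lt_irrefl _)
      · exact h
    have hne : ((e 0 : I) : ℝ) ≠ (e 1 : I) := by
      intro h
      have := he (Subtype.ext h)
      omega
    have key : ∀ a b : I, (a : ℝ) < b →
        (∀ᶠ n : ℕ in atTop, 0 < (ρ n ω : Measure I).real {a}) →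
        (∀ᶠ n : ℕ in atTop, 0 < (ρ n ω : Measure I).real {b}) → False := by
      intro a b hab ha hb
      obtain ⟨q, hq1, hq2⟩ := exists_rat_btwn hab
      refine h1ω q ?_
      filter_upwards [ha, hb] with n hna hnb
      have g1 : gi (q : ℝ) b = 1 := by unfold gi; rw [if_pos hq2.le]
      have g0 : gi (q : ℝ) a = 0 := by unfold gi; rw [if_neg (not_le.2 hq1)]
      have l1 := singleton_le (μ := (ρ n ω : Measure I)) (gi_blim (q : ℝ)) g1
      have l2 := singleton_le (μ := (ρ n ω : Measure I)) (gi_blim (q : ℝ)).compl (e := a)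
        (by rw [g0, sub_zero])
      rw [integral_sub (integrable_const _)
        (integrable_of_bdd (gi_blim _).measurable (gi_blim _).abs_le)] at l2
      simp only [integral_const, probReal_univ, one_smul] at l2
      exact ⟨by linarith, by linarith⟩
    rcases lt_or_gt_of_ne hne with h | h
    · exact key _ _ h (hpos 0) (hpos 1)
    · exact key _ _ h (hpos 1) (hpos 0)
  have h3 := ae_iff.1 h2
  simp at h3

end process

end Pool.Agent.H971.DU
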