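import Pool.Agent.H971.DU.Dust3
import Pool.Agent.H971.DU.One

/-! The dust regime: no infinite sequence of Eves (helper file). -/

open MeasureTheory ProbabilityTheory Filter Topology Set
open scoped ENNReal NNReal unitInterval

namespace Pool.Agent.H971.DU

open Pool.Agent.H971.FV

/-- `Λ` is a nonzero finite measure on `[0,1]` without atom at `0`, in the intensive regime with
dust: `∫ u ν(du) = ∫ u⁻¹ Λ(du) < ∞`. -/
structure DustRegime (Λ : Measure ℝ) : Prop where
  /-- `Λ` is finite -/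
  finite : IsFiniteMeasure Λ
  /-- `Λ` is carried by `[0,1]` -/
  support : Λ (Icc 0 1)ᶜ = 0
  /-- `Λ({0}) = 0` -/
  atom_zero : Λ {0} = 0
  /-- `Λ` is not zero -/
  ne_zero : Λ ≠ 0
  /-- `∫ u ν(du) < ∞` -/
  dust : ∫⁻ u, ENNReal.ofReal u ∂(nu Λ) ≠ ∞

lemma DustRegime.nu_ne_zero {Λ : Measure ℝ} (h : DustRegime Λ) : nu Λ ≠ 0 := by
  intro h0
  unfold nu at h0
  rw [withDensity_eq_zero_iff (by fun_prop)] at h0
  have h1 : ∀ᵐ u ∂(Λ.restrict (Ioc 0 1)), False := by
    filter_upwards [h0, ae_restrict_mem measurableSet_Ioc] with u hu hu2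
    have h3 : 0 < (u ^ 2)⁻¹ := inv_pos.2 (pow_pos hu2.1 2)
    simp only [Pi.zero_apply, ENNReal.ofReal_eq_zero] at hu
    linarith
  have h2 := ae_iff.1 h1
  simp only [not_false_eq_true, ofPred_true, Measure.restrict_apply_univ] at h2
  have h3 : Λ univ = 0 := by
    refine measure_mono_null (t := Ioc (0 : ℝ) 1 ∪ ({0} ∪ (Icc (0 : ℝ) 1)ᶜ)) ?_
      (measure_union_null h2 (measure_union_null h.atom_zero h.support))
    intro u _
    by_cases hu : u ∈ Icc (0 : ℝ) 1
    · rcases eq_or_lt_of_le hu.1 with h4 | h4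
      · right; left; exact h4.symm
      · left; exact ⟨h4, hu.2⟩
    · right; right; exact hu
  exact h.ne_zero (Measure.measure_univ_eq_zero.1 h3)

/-- No infinite sequence of Eves in the dust regime. -/
theorem dust_no_eves {Λ : Measure ℝ} (h : DustRegime Λ) {Ω : Type*} [MeasurableSpace Ω]
    {P : Measure Ω} [IsProbabilityMeasure P] {ρ : ℝ≥0 → Ω → ProbabilityMeasure I}
    (hFV : IsFlemingViot Λ P ρ) : ¬ ∀ᵐ ω ∂P, HasEves (fun t => ρ t ω) := by
  haveI := h.finite
  by_cases h1 : Λ {1} = 0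
  · obtain ⟨μ0, hμ, hp⟩ := dust_pot h1 h.nu_ne_zero h.dust
    exact not_ae_hasEves hFV hμ hp
  · exact not_ae_hasEves_one hFV h1

end Pool.Agent.H971.DU
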