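import Pool.Agent.H971.FV.Main

/-! General potentials: a criterion for the absence of infinite sequences of Eves (helper file). -/

open MeasureTheory ProbabilityTheory Filter Topology Set
open scoped ENNReal NNReal unitInterval

namespace Pool.Agent.H971.DU

open Pool.Agent.H971.FV

/-- A finitely supported potential with error `ε`. -/
structure Pot (Λ : Measure ℝ) (μ0 ε : ℝ) (m : ℕ → ℝ) (N : ℕ) : Prop where
  two : 2 ≤ N
  nonneg : ∀ n, 0 ≤ m n
  le_one : ∀ n, m n ≤ 1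
  zero : ∀ n, N ≤ n → m n = 0
  one : μ0 ≤ m 1
  eps : 0 ≤ ε
  drift : ∀ k : ℕ, 1 ≤ k → -((k : ℝ) + 1) * ε ≤ ∫ u, D m k u ∂(nu Λ)

section evaluation

variable {Λ : Measure ℝ} [IsFiniteMeasure Λ]

lemma integrable_P2 (k : ℕ) : Integrable (P2 k) (nu Λ) := by
  refine integrable_nu (by unfold P2; fun_prop) (C := 2 * (k + 1) * (k + 2) + 4) (fun u hu => ?_)
  have hu0 := hu.1
  have hu2 : 0 ≤ u ^ 2 := sq_nonneg u
  have hk : (0 : ℝ) ≤ 2 * (k + 1) * (k + 2) := by positivity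
  rcases lt_or_ge u 1 with h1 | h1
  · rw [abs_of_nonneg (P2_nonneg hu0.le h1)]
    rcases le_total u (1 / 2) with h2 | h2
    · have h3 := P2_le_fact (k := k) hu0.le h1
      have h4 : u / (1 - u) ≤ 2 * u := by
        rw [div_le_iff₀ (by linarith)]
        nlinarith
      have h5 : (u / (1 - u)) ^ 2 ≤ (2 * u) ^ 2 :=
        pow_le_pow_left₀ (div_nonneg hu0.le (by linarith)) h4 2
      have h6 : ((k : ℝ) + 1) * (k + 2) * (u / (1 - u)) ^ 2 ≤ (k + 1) * (k + 2) * (2 * u) ^ 2 :=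
        mul_le_mul_of_nonneg_left h5 (by positivity)
      nlinarith
    · have h3 := P2_le_one (k := k) hu0.le h1
      have h4 : 1 ≤ 4 * u ^ 2 := by nlinarith
      nlinarith
  · have h2 : u = 1 := le_antisymm hu.2 h1
    subst h2
    unfold P2
    simp
    nlinarith

lemma integrable_D {N : ℕ} {m : ℕ → ℝ} (hm : ∀ n, N ≤ n → m n = 0) (k : ℕ) :
    Integrable (D m k) (nu Λ) := by
  have : D m k = fun u => k * (∑ n ∈ Finset.Ico (k + 1) N, (((k + (n + 1 - k)).choose k : ℝ) * m n)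
      * (u ^ (n + 1 - k) * (1 - u) ^ (k + 1))) - (k + 1) * m k * P2 k u := by
    funext u
    unfold D
    rw [E2_eq hm]
    congr 2
    refine Finset.sum_congr rfl (fun n _ => ?_)
    unfold nb
    ring
  rw [this]
  refine Integrable.sub (Integrable.const_mul (integrable_finsetSum _ (fun n hn => ?_)) _)
    ((integrable_P2 k).const_mul _)
  refine (integrable_mono_nu ?_).const_mul _
  have := (Finset.mem_Ico.1 hn).1
  omega

variable {α β γ : I → ℝ}

/-- the potential function of the masses -/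
noncomputable def Phi (α β γ : I → ℝ) (m : ℕ → ℝ) (N : ℕ) (μ : Measure I) : ℝ :=
  ∑ n ∈ Finset.Ico 1 N, ((n : ℝ) + 1) * m n * mom (tf α β γ n) μ

/-- generator applied to the potential -/
noncomputable def LPhi (Λ : Measure ℝ) (α β γ : I → ℝ) (m : ℕ → ℝ) (N : ℕ) (μ : Measure I) : ℝ :=
  ∑ n ∈ Finset.Ico 1 N, ((n : ℝ) + 1) * m n * gen' Λ (tf α β γ n) μ

lemma integrable_jump (h : Part α β γ) (n : ℕ) (μ : Measure I) [IsProbabilityMeasure μ] :
    Integrable (jump (tf α β γ n) μ) (nu Λ) := by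
  have : jump (tf α β γ n) μ = fun u => ∑ S ∈ (Finset.univ : Finset (Fin (n + 2))).powerset with
      2 ≤ S.card, u ^ S.card * (1 - u) ^ (n + 2 - S.card) * KS (tf α β γ n) μ S := by
    funext u
    exact jump_eq _ (fun i => (tf_blim h n i).measurable) (fun i x => (tf_blim h n i).abs_le x) μ u
  rw [this]
  refine integrable_finsetSum _ (fun S hS => ?_)
  rw [Finset.mem_filter] at hS
  exact (integrable_mono_nu hS.2).mul_const _

lemma LPhi_eq (h : Part α β γ) {m : ℕ → ℝ} {N : ℕ} (hm : ∀ n, N ≤ n → m n = 0) (μ : Measure I)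
    [IsProbabilityMeasure μ] :
    LPhi Λ α β γ m N μ = (∫ t, β t ∂μ) * (∫ t, γ t ∂μ) *
      ∑ k ∈ Finset.Ico 1 N, (∫ u, D m k u ∂(nu Λ)) * (∫ t, α t ∂μ) ^ k := by
  have e1 : LPhi Λ α β γ m N μ = ∫ u, ∑ n ∈ Finset.Ico 1 N,
      ((n : ℝ) + 1) * m n * jump (tf α β γ n) μ u ∂(nu Λ) := by
    unfold LPhi gen'
    rw [integral_finsetSum _ (fun n _ => (integrable_jump h n μ).const_mul _)]
    exact Finset.sum_congr rfl (fun n _ => (integral_const_mul _ _).symm)
  rw [e1]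
  simp_rw [jump_tf h, comb hm _ _ _ _ (sum_one h μ)]
  rw [integral_const_mul, integral_finsetSum _ (fun k _ => (integrable_D hm k).mul_const _)]
  congr 1
  exact Finset.sum_congr rfl (fun k _ => integral_mul_const _ _)

variable {μ0 ε : ℝ} {m : ℕ → ℝ} {N : ℕ}

lemma LPhi_ge (h : Part α β γ) (hp : Pot Λ μ0 ε m N) (μ : Measure I) [IsProbabilityMeasure μ] :
    -ε ≤ LPhi Λ α β γ m N μ := by
  rw [LPhi_eq h hp.zero]
  have hx := integral_mem h.ha μ
  have hy := integral_mem h.hb μ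
  have hw := integral_mem h.hc μ
  have hs := sum_one h μ
  set x := ∫ t, α t ∂μ
  set y := ∫ t, β t ∂μ
  set w := ∫ t, γ t ∂μ
  have hyw : 0 ≤ y * w := mul_nonneg hy.1 hw.1
  have h1 : ∑ k ∈ Finset.Ico 1 N, (-((k : ℝ) + 1) * ε) * x ^ k
      ≤ ∑ k ∈ Finset.Ico 1 N, (∫ u, D m k u ∂(nu Λ)) * x ^ k := by
    refine Finset.sum_le_sum (fun k hk => ?_)
    exact mul_le_mul_of_nonneg_right (hp.drift k (Finset.mem_Ico.1 hk).1) (pow_nonneg hx.1 _)
  refine le_trans ?_ (mul_le_mul_of_nonneg_left h1 hyw)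
  have h2 : ∑ k ∈ Finset.Ico 1 N, (-((k : ℝ) + 1) * ε) * x ^ k
      = -ε * ∑ k ∈ Finset.Ico 1 N, ((k : ℝ) + 1) * 1 * x ^ k := by
    rw [Finset.mul_sum]
    refine Finset.sum_congr rfl (fun k _ => ?_)
    ring
  rw [h2]
  have h3 := geom_le' x hx.1 hx.2 N (c := fun _ => 1) (fun _ => zero_le_one)
    (fun _ => le_rfl)
  have h4 : y * w ≤ (1 - x) ^ 2 := by
    have : 1 - x = y + w := by linarith
    rw [this]; nlinarith
  set G := ∑ k ∈ Finset.Ico 1 N, ((k : ℝ) + 1) * 1 * x ^ k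
  have hG : 0 ≤ G := Finset.sum_nonneg (fun k _ => by have := hx.1; positivity)
  have h5 : y * w * G ≤ 1 := (mul_le_mul_of_nonneg_right h4 hG).trans h3
  have hε := hp.eps
  calc -ε = -ε * 1 := by ring
    _ ≤ -ε * (y * w * G) := by nlinarith
    _ = _ := by ring

lemma Phi_le_Q (h : Part α β γ) (hp : Pot Λ μ0 ε m N) (μ : Measure I) [IsProbabilityMeasure μ] :
    Phi α β γ m N μ ≤ Q β γ μ := by
  unfold Phi Q
  simp_rw [mom_tf]
  have hx := integral_mem h.ha μ
  have hy := integral_mem h.hb μ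
  have hw := integral_mem h.hc μ
  have hs := sum_one h μ
  set x := ∫ t, α t ∂μ
  set y := ∫ t, β t ∂μ
  set w := ∫ t, γ t ∂μ
  have e : ∑ n ∈ Finset.Ico 1 N, ((n : ℝ) + 1) * m n * (y * (w * x ^ n))
      = y * w * ∑ n ∈ Finset.Ico 1 N, ((n : ℝ) + 1) * m n * x ^ n := by
    rw [Finset.mul_sum]
    exact Finset.sum_congr rfl (fun n _ => by ring)
  rw [e]
  have h3 := geom_le' x hx.1 hx.2 N (c := m) hp.nonneg hp.le_one
  have h1x : 1 - x = y + w := by linarith
  rw [h1x] at h3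
  set G := ∑ n ∈ Finset.Ico 1 N, ((n : ℝ) + 1) * m n * x ^ n
  rcases eq_or_lt_of_le (show 0 ≤ y + w by linarith [hy.1, hw.1]) with h0 | h0
  · have hy0 : y = 0 := by linarith [hy.1, hw.1]
    rw [hy0]; simp
  · rw [le_div_iff₀ (by positivity)]
    have : 0 ≤ y * w := mul_nonneg hy.1 hw.1
    calc y * w * G * (y + w) ^ 2 = y * w * ((y + w) ^ 2 * G) := by ring
      _ ≤ y * w * 1 := mul_le_mul_of_nonneg_left h3 this
      _ = _ := mul_one _

lemma Phi_ge (h : Part α β γ) (hp : Pot Λ μ0 ε m N) (μ : Measure I) [IsProbabilityMeasure μ] :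
    2 * μ0 * ((∫ t, α t ∂μ) * (∫ t, β t ∂μ) * (∫ t, γ t ∂μ)) ≤ Phi α β γ m N μ := by
  unfold Phi
  simp_rw [mom_tf]
  have hx := integral_mem h.ha μ
  have hy := integral_mem h.hb μ
  have hw := integral_mem h.hc μ
  set x := ∫ t, α t ∂μ
  set y := ∫ t, β t ∂μ
  set w := ∫ t, γ t ∂μ
  have hmem : 1 ∈ Finset.Ico 1 N := by rw [Finset.mem_Ico]; have := hp.two; omega
  have := Finset.single_le_sum
    (f := fun n : ℕ => ((n : ℝ) + 1) * m n * (y * (w * x ^ n))) (fun n _ => by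
      have := hp.nonneg n
      have := hx.1
      have := hy.1
      have := hw.1
      positivity) hmem
  refine le_trans ?_ this
  simp only [Nat.cast_one, pow_one]
  have h1 := hp.one
  have h2 : 0 ≤ x * y * w := mul_nonneg (mul_nonneg hx.1 hy.1) hw.1
  calc 2 * μ0 * (x * y * w) ≤ 2 * m 1 * (x * y * w) := by nlinarith
    _ = _ := by ring

end evaluation

section lower

variable {Λ : Measure ℝ} [IsFiniteMeasure Λ]
variable {Ω : Type*} [mΩ : MeasurableSpace Ω] {P : Measure Ω} [IsProbabilityMeasure P]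
  {ρ : ℝ≥0 → Ω → ProbabilityMeasure I} {α β γ : I → ℝ}

lemma Q_meas (hFV : IsFlemingViot Λ P ρ) (h : Part α β γ) (t : ℝ≥0) :
    Measurable (fun ω => Q β γ (ρ t ω : Measure I)) := by
  unfold Q
  have hw := wm_of_measurable (hFV.meas t)
  exact ((hw.blim h.hb).mul (hw.blim h.hc)).div (((hw.blim h.hb).add (hw.blim h.hc)).pow_const 2)

lemma Q_int (hFV : IsFlemingViot Λ P ρ) (h : Part α β γ) (t : ℝ≥0) :
    Integrable (fun ω => Q β γ (ρ t ω : Measure I)) P :=
  Integrable.of_bound (C := 1 / 4) (Q_meas hFV h t).aestronglyMeasurable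
    (Eventually.of_forall (fun ω => by
      rw [Real.norm_eq_abs, abs_of_nonneg (Q_nonneg h _)]; exact Q_le h _))

lemma ts_real (t : ℝ≥0) : (ts P t).real univ = t := by
  unfold ts
  have hP : P.real univ = 1 := probReal_univ
  rw [← univ_prod_univ, measureReal_prod_prod, hP, mul_one,
    measureReal_restrict_apply MeasurableSet.univ, univ_inter, Real.volume_real_Ioc,
    sub_zero, max_eq_left (NNReal.coe_nonneg t)]

lemma EQ_ge_M (hFV : IsFlemingViot Λ P ρ) (h : Part α β γ) (t : ℝ≥0) {μ0 ε : ℝ} {m : ℕ → ℝ}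
    {N : ℕ} (hp : Pot Λ μ0 ε m N) :
    2 * μ0 * ((∫ s, α s ∂(volume : Measure I)) * (∫ s, β s ∂(volume : Measure I)) *
      (∫ s, γ s ∂(volume : Measure I))) - ε * t
      ≤ ∫ ω, Q β γ (ρ t ω : Measure I) ∂P := by
  have h1 : ∫ ω, Phi α β γ m N (ρ t ω : Measure I) ∂P = Phi α β γ m N (volume : Measure I)
      + ∫ p, LPhi Λ α β γ m N (ρ p.1.toNNReal p.2 : Measure I) ∂(ts P t) := by
    unfold Phi LPhi
    rw [integral_finsetSum _ (fun n _ => (hFV.integrable_mom (tf_blim h n) t).const_mul _),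
      integral_finsetSum _ (fun n _ => (hFV.integrable_gen (tf_blim h n) t).const_mul _),
      ← Finset.sum_add_distrib]
    refine Finset.sum_congr rfl (fun n _ => ?_)
    rw [integral_const_mul, integral_const_mul, fwd hFV (tf_blim h n) t]
    ring
  have hPhii : Integrable (fun ω => Phi α β γ m N (ρ t ω : Measure I)) P := by
    unfold Phi
    exact integrable_finsetSum _ (fun n _ => (hFV.integrable_mom (tf_blim h n) t).const_mul _)
  have hLi : Integrable (fun p : ℝ × Ω => LPhi Λ α β γ m N (ρ p.1.toNNReal p.2 : Measure I))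
      (ts P t) := by
    unfold LPhi
    exact integrable_finsetSum _ (fun n _ => (hFV.integrable_gen (tf_blim h n) t).const_mul _)
  have h2 : ∫ ω, Phi α β γ m N (ρ t ω : Measure I) ∂P ≤ ∫ ω, Q β γ (ρ t ω : Measure I) ∂P :=
    integral_mono hPhii (Q_int hFV h t) (fun ω => Phi_le_Q h hp _)
  have h3 : -ε * (t : ℝ)
      ≤ ∫ p, LPhi Λ α β γ m N (ρ p.1.toNNReal p.2 : Measure I) ∂(ts P t) := by
    have h4 : ∫ _p : ℝ × Ω, -ε ∂(ts P t)
        ≤ ∫ p, LPhi Λ α β γ m N (ρ p.1.toNNReal p.2 : Measure I) ∂(ts P t) :=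
      integral_mono (integrable_const _) hLi (fun p => LPhi_ge h hp _)
    refine le_trans (le_of_eq ?_) h4
    rw [integral_const, ts_real, smul_eq_mul, mul_comm]
  have h5 := Phi_ge h hp (volume : Measure I)
  linarith

/-- `Λ` admits potentials with arbitrarily small error. -/
def HasPot (Λ : Measure ℝ) (μ0 : ℝ) : Prop :=
  ∀ ε : ℝ, 0 < ε → ∃ m N ε', ε' ≤ ε ∧ Pot Λ μ0 ε' m N

theorem EQ_ge (hFV : IsFlemingViot Λ P ρ) (h : Part α β γ) (t : ℝ≥0) {μ0 : ℝ}
    (hp : HasPot Λ μ0) :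
    2 * μ0 * ((∫ s, α s ∂(volume : Measure I)) * (∫ s, β s ∂(volume : Measure I)) *
      (∫ s, γ s ∂(volume : Measure I)))
      ≤ ∫ ω, Q β γ (ρ t ω : Measure I) ∂P := by
  refine le_of_forall_pos_le_add (fun δ hδ => ?_)
  obtain ⟨m, N, ε', hε, hP⟩ := hp (δ / (t + 1)) (by positivity)
  have h1 := EQ_ge_M hFV h t hP
  have h2 : ε' * (t : ℝ) ≤ δ := by
    have ht : (0 : ℝ) ≤ t := NNReal.coe_nonneg t
    calc ε' * (t : ℝ) ≤ δ / (t + 1) * t := mul_le_mul_of_nonneg_right hε ht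
      _ ≤ δ / (t + 1) * (t + 1) := by
          have : 0 ≤ δ / ((t : ℝ) + 1) := by positivity
          nlinarith
      _ = δ := by field_simp
  linarith

end lower

section final

variable {Λ : Measure ℝ} [IsFiniteMeasure Λ]
variable {Ω : Type*} [mΩ : MeasurableSpace Ω] {P : Measure Ω} [IsProbabilityMeasure P]
  {ρ : ℝ≥0 → Ω → ProbabilityMeasure I}

lemma Z_meas (hFV : IsFlemingViot Λ P ρ) (L i : ℕ) : Measurable (Z ρ L i) := by
  refine Measurable.limsup (fun n => ?_)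
  exact (Q_meas hFV (cell_part L i) n).ennreal_ofReal

lemma Z_int (hFV : IsFlemingViot Λ P ρ) {μ0 : ℝ} (hμ : 0 < μ0) (hp : HasPot Λ μ0)
    {L i : ℕ} (hL : 4 ≤ L) (hi : i < L) :
    ENNReal.ofReal (μ0 / (8 * L)) ≤ ∫⁻ ω, Z ρ L i ω ∂P := by
  have hL' : (0 : ℝ) < L := by exact_mod_cast (show 0 < L by omega)
  have h1 : ∀ n : ℕ, ENNReal.ofReal (μ0 / (8 * L))
      ≤ ∫⁻ ω, ENNReal.ofReal (Q (cβ L i) (cγ L i) (ρ n ω : Measure I)) ∂P := by
    intro n
    rw [← ofReal_integral_eq_lintegral_ofReal (Q_int hFV (cell_part L i) n)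
      (Eventually.of_forall (fun ω => Q_nonneg (cell_part L i) _))]
    refine ENNReal.ofReal_le_ofReal (le_trans ?_ (EQ_ge hFV (cell_part L i) n hp))
    rw [cα_int hi]
    have hb := cβ_int hL hi
    have hc := cγ_int hL hi
    have h2 : (1 : ℝ) / 16 ≤ (∫ x, cβ L i x ∂(volume : Measure I)) *
        (∫ x, cγ L i x ∂(volume : Measure I)) := by nlinarith
    have h3 : 0 < 1 / (L : ℝ) := by positivity
    calc μ0 / (8 * (L : ℝ)) = 2 * μ0 * (1 / L * (1 / 16)) := by field_simp; norm_num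
      _ ≤ 2 * μ0 * (1 / L * ((∫ x, cβ L i x ∂(volume : Measure I)) *
        (∫ x, cγ L i x ∂(volume : Measure I)))) := by
          apply mul_le_mul_of_nonneg_left _ (by positivity)
          exact mul_le_mul_of_nonneg_left h2 h3.le
      _ = _ := by ring
  have h2 := limsup_lintegral_le (μ := P) (f := fun (n : ℕ) ω =>
      ENNReal.ofReal (Q (cβ L i) (cγ L i) (ρ n ω : Measure I))) (fun _ => ENNReal.ofReal (1 / 4))
    (fun n => (Q_meas hFV (cell_part L i) n).ennreal_ofReal)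
    (fun n => Eventually.of_forall (fun ω => ENNReal.ofReal_le_ofReal (Q_le (cell_part L i) _)))
    (by rw [lintegral_const, measure_univ, mul_one]; exact ENNReal.ofReal_ne_top)
  refine le_trans ?_ h2
  refine le_limsup_of_frequently_le (Eventually.frequently (Eventually.of_forall h1))
    (by isBoundedDefault)

lemma ZZ_int (hFV : IsFlemingViot Λ P ρ) {μ0 : ℝ} (hμ : 0 < μ0) (hp : HasPot Λ μ0)
    {L : ℕ} (hL : 4 ≤ L) :
    ENNReal.ofReal (μ0 / 8) ≤ ∫⁻ ω, ZZ ρ L ω ∂P := by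
  unfold ZZ
  rw [lintegral_finsetSum _ (fun i _ => Z_meas hFV L i)]
  have hL' : (0 : ℝ) < L := by exact_mod_cast (show 0 < L by omega)
  calc ENNReal.ofReal (μ0 / 8) = ∑ i ∈ Finset.range L, ENNReal.ofReal (μ0 / (8 * L)) := by
        rw [Finset.sum_const, Finset.card_range, nsmul_eq_mul, ← ENNReal.ofReal_natCast,
          ← ENNReal.ofReal_mul hL'.le]
        congr 1
        field_simp
    _ ≤ _ := Finset.sum_le_sum (fun i hi => Z_int hFV hμ hp hL (Finset.mem_range.1 hi))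

theorem not_ae_hasEves (hFV : IsFlemingViot Λ P ρ) {μ0 : ℝ} (hμ : 0 < μ0) (hp : HasPot Λ μ0) :
    ¬ ∀ᵐ ω ∂P, HasEves (fun t => ρ t ω) := by
  intro hae
  have h1 : Tendsto (fun L => ∫⁻ ω, ZZ ρ (L + 4) ω ∂P) atTop (𝓝 (∫⁻ _ω, 0 ∂P)) := by
    refine tendsto_lintegral_of_dominated_convergence (fun _ => ENNReal.ofReal (1 / 4))
      (fun L => Finset.measurable_sum _ (fun i _ => Z_meas hFV (L + 4) i)) (fun L => ?_)
      (by rw [lintegral_const, measure_univ, mul_one]; exact ENNReal.ofReal_ne_top) ?_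
    · filter_upwards [hae] with ω hω
      exact ZZ_le hω (by omega)
    · filter_upwards [hae] with ω hω
      exact (tendsto_add_atTop_iff_nat 4).2 (ZZ_tendsto hω)
  rw [lintegral_zero] at h1
  have h2 : ENNReal.ofReal (μ0 / 8) ≤ 0 :=
    ge_of_tendsto' h1 (fun L => ZZ_int hFV hμ hp (by omega))
  have h3 : (0 : ℝ≥0∞) < ENNReal.ofReal (μ0 / 8) := ENNReal.ofReal_pos.2 (by positivity)
  exact absurd h2 (not_le.2 h3)

end final

end Pool.Agent.H971.DU
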