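import Pool.Agent.H971.DU.Pot

/-! Pointwise bounds (helper file). -/

open MeasureTheory ProbabilityTheory Filter Topology Set
open scoped ENNReal NNReal unitInterval

namespace Pool.Agent.H971.DU

open Pool.Agent.H971.FV

/-- pointwise lower bound for the drift. -/
lemma D_lower {k : ℕ} {u : ℝ} (h0 : 0 ≤ u) (h1 : u < 1) {m : ℕ → ℝ}
    (hm0 : ∀ n, 0 ≤ m n) (hm1 : ∀ n, m n ≤ 1) {a e : ℕ → ℝ}
    (ha : Summable (fun i => nb k u (i + 2) * a i)) (he : Summable (fun i => nb k u (i + 2) * e i))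
    (hr : ∀ i, m k + a i - e i ≤ m (k + 1 + i)) :
    k * (∑' i, nb k u (i + 2) * a i) - m k * P2 k u - k * (∑' i, nb k u (i + 2) * e i)
      ≤ D m k u := by
  have hs : HasSum (fun i : ℕ => nb k u (i + 2) * (m k + a i - e i))
      (P2 k u * m k + (∑' i, nb k u (i + 2) * a i) - (∑' i, nb k u (i + 2) * e i)) := by
    have b1 := (hasSum_P2 (k := k) h0 h1).mul_right (m k)
    refine ((b1.add ha.hasSum).sub he.hasSum).congr_fun ?_ |> fun h => h
    intro i; ring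
  have hle : P2 k u * m k + (∑' i, nb k u (i + 2) * a i) - (∑' i, nb k u (i + 2) * e i)
      ≤ E2 k u m := by
    refine hasSum_le (fun i => ?_) hs (summable_E2 h0 h1 hm0 hm1).hasSum
    exact mul_le_mul_of_nonneg_left (hr i) (nb_nonneg h0 h1.le _)
  have h3 := mul_le_mul_of_nonneg_left hle (Nat.cast_nonneg (α := ℝ) k)
  unfold D
  nlinarith

lemma err_le {k : ℕ} {u : ℝ} (h0 : 0 ≤ u) (h1 : u < 1) {c : ℝ} (hc : 0 < c) :
    Summable (fun i : ℕ => nb k u (i + 2) * min 2 (((i : ℝ) + 1) / c)) ∧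
    ∑' i : ℕ, nb k u (i + 2) * min 2 (((i : ℝ) + 1) / c) ≤ min 2 (S1 k u / c) := by
  have hn : ∀ i : ℕ, 0 ≤ nb k u (i + 2) := fun i => nb_nonneg h0 h1.le _
  have hs : Summable (fun i : ℕ => nb k u (i + 2) * min 2 (((i : ℝ) + 1) / c)) := by
    refine Summable.of_nonneg_of_le (fun i => mul_nonneg (hn i) (le_min (by norm_num)
      (by positivity))) (fun i => mul_le_mul_of_nonneg_left (min_le_left _ _) (hn i))
      ((hasSum_P2 (k := k) h0 h1).summable.mul_right 2)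
  refine ⟨hs, le_min ?_ ?_⟩
  · have h2 := hasSum_le (fun (i : ℕ) => mul_le_mul_of_nonneg_left
      (min_le_left 2 (((i : ℝ) + 1) / c)) (hn i)) hs.hasSum
      ((hasSum_P2 (k := k) h0 h1).mul_right 2)
    have := P2_le_one (k := k) h0 h1
    linarith
  · have h3 := (summable_S1 (k := k) h0 h1).hasSum.div_const c
    refine hasSum_le (fun i => ?_) hs.hasSum h3
    calc nb k u (i + 2) * min 2 (((i : ℝ) + 1) / c) ≤ nb k u (i + 2) * (((i : ℝ) + 1) / c) :=
          mul_le_mul_of_nonneg_left (min_le_right _ _) (hn i)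
      _ = _ := by ring

/-- `E[min(J-1,k); J ≥ 2]`. -/
noncomputable def Gk (k : ℕ) (u : ℝ) : ℝ := ∑' i : ℕ, nb k u (i + 2) * min ((i : ℝ) + 1) k

lemma Gk_summable {k : ℕ} {u : ℝ} (h0 : 0 ≤ u) (h1 : u < 1) :
    Summable (fun i : ℕ => nb k u (i + 2) * min ((i : ℝ) + 1) k) := by
  have hn : ∀ i : ℕ, 0 ≤ nb k u (i + 2) := fun i => nb_nonneg h0 h1.le _
  exact Summable.of_nonneg_of_le (fun i => mul_nonneg (hn i) (le_min (by positivity)
      (by positivity))) (fun i => mul_le_mul_of_nonneg_left (min_le_right _ _) (hn i))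
      ((hasSum_P2 (k := k) h0 h1).summable.mul_right (k : ℝ))

lemma Gk_nonneg {k : ℕ} {u : ℝ} (h0 : 0 ≤ u) (h1 : u < 1) : 0 ≤ Gk k u :=
  tsum_nonneg (fun i => mul_nonneg (nb_nonneg h0 h1.le _) (le_min (by positivity) (by positivity)))

lemma Gk_ge {k : ℕ} (hk : 1 ≤ k) {u : ℝ} (h0 : 0 ≤ u) (h1 : u < 1) {s : ℝ} (hs0 : 0 ≤ s)
    (hs1 : s ≤ 1) :
    s * ((k + 1) * (u / (1 - u)) - 1)
      - s ^ 2 * ((k + 1) * (k + 2) * (u / (1 - u)) ^ 2 + 1) / (4 * k) ≤ Gk k u := by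
  have hk' : (1 : ℝ) ≤ k := by exact_mod_cast hk
  set r := u / (1 - u) with hr
  have hr0 : 0 ≤ r := div_nonneg h0 (by linarith)
  have hs : HasSum (fun j : ℕ => nb k u j * (s * ((j : ℝ) - 1) - s ^ 2 * ((j : ℝ) - 1) ^ 2 / (4 * k)))
      (s * ((k + 1) * r - 1) - s ^ 2 * ((k + 1) * (k + 2) * r ^ 2 - (k + 1) * r + 1) / (4 * k)) := by
    have b0 := hasSum_nb (k := k) h0 h1
    have b1 := hasSum_mean (k := k) h0 h1
    have b2 := hasSum_fact2 (k := k) h0 h1
    have b3 := (((b1.sub b0).mul_left s).sub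
      ((((b2.sub b1).add b0).mul_left (s ^ 2)).div_const (4 * k)))
    refine b3.congr_fun ?_ |> fun h => h
    intro j; ring
  have hs2 := (hasSum_nat_add_iff' 2).2 hs
  simp only [Finset.sum_range_succ, Finset.sum_range_zero, Nat.cast_zero, zero_add,
    Nat.cast_one, Nat.cast_add, Nat.cast_ofNat, sub_self, mul_zero] at hs2
  have h3 := hasSum_le (fun i => ?_) hs2 (Gk_summable (k := k) h0 h1).hasSum
  · have hn0 := nb_nonneg (k := k) h0 h1.le 0
    have h4 : nb k u 0 * (s * (0 - 1) - s ^ 2 * (0 - 1) ^ 2 / (4 * k)) ≤ 0 := by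
      have : s * (0 - 1) - s ^ 2 * (0 - 1) ^ 2 / (4 * k) ≤ 0 := by
        have : 0 ≤ s ^ 2 * (0 - 1 : ℝ) ^ 2 / (4 * k) := by positivity
        linarith
      exact mul_nonpos_of_nonneg_of_nonpos hn0 this
    have h5 : s ^ 2 * ((k + 1) * (k + 2) * r ^ 2 - (k + 1) * r + 1) / (4 * k)
        ≤ s ^ 2 * ((k + 1) * (k + 2) * r ^ 2 + 1) / (4 * k) := by
      apply div_le_div_of_nonneg_right _ (by positivity)
      apply mul_le_mul_of_nonneg_left _ (sq_nonneg _)
      have : 0 ≤ ((k : ℝ) + 1) * r := by positivity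
      linarith
    unfold Gk
    norm_num at h3 h4 h5 ⊢
    linarith
  · refine mul_le_mul_of_nonneg_left ?_ (nb_nonneg h0 h1.le _)
    have hi : (0 : ℝ) ≤ i := Nat.cast_nonneg i
    have e1 : (i : ℝ) + 2 - 1 = i + 1 := by ring
    rw [e1]
    refine le_min ?_ ?_
    · have : 0 ≤ s ^ 2 * ((i : ℝ) + 1) ^ 2 / (4 * k) := by positivity
      nlinarith
    · have : (k : ℝ) - (s * (i + 1) - s ^ 2 * (i + 1) ^ 2 / (4 * k))
        = (2 * k - s * (i + 1)) ^ 2 / (4 * k) := by field_simp; ring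
      have h6 : 0 ≤ (2 * (k : ℝ) - s * (i + 1)) ^ 2 / (4 * k) := by positivity
      linarith

lemma Gk_lower {k : ℕ} (hk : 1 ≤ k) {u δ : ℝ} (hδ : 0 < δ) (hδ2 : δ ≤ 1 / 2) (hu : δ ≤ u)
    (hu2 : u ≤ 1 - δ) (hkδ : 8 ≤ k * δ) : δ ^ 2 / 12 * k ≤ Gk k u := by
  have hk' : (1 : ℝ) ≤ k := by exact_mod_cast hk
  have h0 : 0 ≤ u := by linarith
  have h1 : u < 1 := by linarith
  refine le_trans ?_ (Gk_ge hk h0 h1 (s := δ / 3) (by positivity) (by linarith))
  set r := u / (1 - u) with hr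
  have hr1 : δ ≤ r := by
    rw [hr, le_div_iff₀ (by linarith)]
    nlinarith
  have hr2 : r * δ ≤ 1 := by
    rw [hr, div_mul_eq_mul_div, div_le_one (by linarith)]
    nlinarith
  have hr0 : 0 ≤ r := by linarith
  have h2 : (δ / 3) ^ 2 * ((k + 1) * (k + 2) * r ^ 2 + 1) / (4 * k)
      ≤ (δ / 3) * (k * r / 2 + 1 / 4) := by
    rw [div_le_iff₀ (by positivity)]
    have h3 : ((k : ℝ) + 1) * (k + 2) ≤ 6 * k ^ 2 := by nlinarith
    have h4 : ((k : ℝ) + 1) * (k + 2) * r ^ 2 ≤ 6 * k ^ 2 * r ^ 2 :=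
      mul_le_mul_of_nonneg_right h3 (sq_nonneg _)
    have h5 : (δ / 3) * ((k + 1) * (k + 2) * r ^ 2 + 1) ≤ 2 * k ^ 2 * r + 1 := by
      have h6 : δ * (6 * k ^ 2 * r ^ 2) ≤ 6 * k ^ 2 * r := by
        have : δ * (6 * (k : ℝ) ^ 2 * r ^ 2) = 6 * k ^ 2 * r * (r * δ) := by ring
        rw [this]
        have h7 : 0 ≤ 6 * (k : ℝ) ^ 2 * r := by positivity
        nlinarith
      have h8 := mul_le_mul_of_nonneg_left h4 hδ.le
      linarith
    have h9 : (δ / 3) ^ 2 * ((k + 1) * (k + 2) * r ^ 2 + 1)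
        = (δ / 3) * ((δ / 3) * ((k + 1) * (k + 2) * r ^ 2 + 1)) := by ring
    have h10 : (δ / 3) * (k * r / 2 + 1 / 4) * (4 * k) = (δ / 3) * (2 * k ^ 2 * r + k) := by ring
    rw [h9, h10]
    apply mul_le_mul_of_nonneg_left _ (by positivity)
    linarith
  have h11 : (k : ℝ) * δ ≤ k * r := mul_le_mul_of_nonneg_left hr1 (by linarith)
  have h12 : δ ^ 2 / 12 * k = (δ / 3) * (k * δ / 4) := by ring
  rw [h12]
  have h13 : k * δ / 4 ≤ ((k + 1) * r - 1) - (k * r / 2 + 1 / 4) := by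
    have : ((k : ℝ) + 1) * r = k * r + r := by ring
    rw [this]
    linarith
  have h14 := mul_le_mul_of_nonneg_left h13 (show 0 ≤ δ / 3 by positivity)
  linarith

lemma P2_le_min {k : ℕ} (hk : 1 ≤ k) {u : ℝ} (h0 : 0 < u) (h1 : u < 1) :
    P2 k u ≤ 12 * k ^ 2 * min (1 / (k : ℝ) ^ 2) (u ^ 2) := by
  have hk' : (1 : ℝ) ≤ k := by exact_mod_cast hk
  have hp := P2_le_one (k := k) h0.le h1
  rcases min_cases (1 / (k : ℝ) ^ 2) (u ^ 2) with ⟨h, _⟩ | ⟨h, _⟩
  · rw [h]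
    have : 12 * (k : ℝ) ^ 2 * (1 / (k : ℝ) ^ 2) = 12 := by field_simp
    rw [this]; linarith
  · rw [h]
    rcases le_total u (1 / 2) with h2 | h2
    · have h3 := P2_le_fact (k := k) h0.le h1
      have h4 : u / (1 - u) ≤ 2 * u := by
        rw [div_le_iff₀ (by linarith)]
        nlinarith
      have h5 : (u / (1 - u)) ^ 2 ≤ (2 * u) ^ 2 :=
        pow_le_pow_left₀ (div_nonneg h0.le (by linarith)) h4 2
      have h7 : ((k : ℝ) + 1) * (k + 2) ≤ 6 * k ^ 2 := by nlinarith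
      have h6 : ((k : ℝ) + 1) * (k + 2) * (u / (1 - u)) ^ 2 ≤ 6 * k ^ 2 * (2 * u) ^ 2 :=
        mul_le_mul h7 h5 (by positivity) (by positivity)
      nlinarith
    · have h4 : 1 ≤ 4 * u ^ 2 := by nlinarith
      have h5 : (1 : ℝ) ≤ k ^ 2 := by nlinarith
      nlinarith [mul_le_mul h4 h5 (by norm_num) (by positivity)]

/-- telescoping bound -/
lemma sum_min_le {u : ℝ} (h0 : 0 < u) (N : ℕ) :
    ∑ i ∈ Finset.range N, min (1 / ((i : ℝ) + 1) ^ 2) (u ^ 2) ≤ 4 * u := by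
  have h : ∀ N : ℕ, ∑ i ∈ Finset.range N, min (1 / ((i : ℝ) + 1) ^ 2) (u ^ 2)
      ≤ 4 * u - 4 / (N + 1 / u) := by
    intro N
    induction N with
    | zero => simp
    | succ N ih =>
      rw [Finset.sum_range_succ]
      set s := 1 / u with hs
      have hs0 : 0 < s := by positivity
      have hN : (0 : ℝ) ≤ N := Nat.cast_nonneg N
      have h1 : min (1 / ((N : ℝ) + 1) ^ 2) (u ^ 2) ≤ 4 / (N + s) - 4 / (((N + 1 : ℕ) : ℝ) + s) := by
        have e : 4 / (N + s) - 4 / (((N + 1 : ℕ) : ℝ) + s) = 4 / ((N + s) * (N + 1 + s)) := by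
          push_cast
          field_simp
          ring
        rw [e]
        rcases le_total ((N : ℝ) + 1) s with h2 | h2
        · refine (min_le_right _ _).trans ?_
          rw [le_div_iff₀ (by positivity)]
          have h3 : (N + s) * (N + 1 + s) ≤ (2 * s) * (2 * s) :=
            mul_le_mul (by linarith) (by linarith) (by positivity) (by positivity)
          have h4 : u ^ 2 * (2 * s * (2 * s)) = 4 := by
            rw [hs]; field_simp; ring
          calc u ^ 2 * ((N + s) * (N + 1 + s)) ≤ u ^ 2 * (2 * s * (2 * s)) :=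
                mul_le_mul_of_nonneg_left h3 (sq_nonneg _)
            _ = 4 := h4
        · refine (min_le_left _ _).trans ?_
          rw [div_le_div_iff₀ (by positivity) (by positivity)]
          nlinarith
      linarith
  refine (h N).trans ?_
  have : 0 ≤ 4 / ((N : ℝ) + 1 / u) := by positivity
  linarith

end Pool.Agent.H971.DU
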